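import Mathlib
import Pool.Agent.Helper41.Hit

open MeasureTheory ProbabilityTheory Filter Topology
open scoped ENNReal NNReal

namespace Pool.Agent.Helper41

variable {Ω : Type*} [MeasurableSpace Ω] {P : Measure Ω} [IsProbabilityMeasure P]
variable {ι : Type*} [DecidableEq ι] {X : ι × ℝ≥0 × ℝ≥0 → Ω → ℝ} [Fintype ι]

lemma lineC_step (h : IsSheet X P) {K n : ℕ} (hK : 1 ≤ K) (σ : ℕ → ℝ≥0) {k : ℕ}
    (i : Fin k → ℕ) (a x : ℕ) (hi : ∀ l, i l ≤ a) (hax : a < x)
    (hgap : 1 ≤ (K : ℝ≥0) * (((x - a : ℕ) : ℝ≥0) * stp n)) :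
    P {ω | (∀ l, ω ∈ lineE X K n σ (i l)) ∧ ω ∈ lineE X K n σ x} ≤
      P {ω | ∀ l, ω ∈ lineE X K n σ (i l)} * ENNReal.ofReal ((rad K n * K) ^ Fintype.card ι) := by
  have hK' : (0 : ℝ≥0) < K := by exact_mod_cast hK
  by_cases hc : 1 ≤ (K : ℝ≥0) * σ x
  swap
  · have : {ω | (∀ l, ω ∈ lineE X K n σ (i l)) ∧ ω ∈ lineE X K n σ x} = ∅ := by
      ext ω
      simp only [Set.mem_setOf_eq, Set.mem_empty_iff_false, iff_false, not_and]
      intro _ hω
      exact hc hω.1
    rw [this, measure_empty]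
    exact bot_le
  set e : ℝ≥0 := a * stp n with he
  have hst := stp_pos n
  have hex : e < x * stp n := by
    rw [he]
    have : (a : ℝ≥0) < x := by exact_mod_cast hax
    exact mul_lt_mul_of_pos_right this hst
  have hσ : 1 / (K : ℝ≥0) ≤ σ x := by
    rw [div_le_iff₀ hK', mul_comm]
    exact hc
  have hσ0 : 0 < σ x := lt_of_lt_of_le (by positivity) hσ
  set U : Ω → (ι × ℝ≥0 × ℝ≥0 → ℝ) := fun ω q => X (q.1, q.2.1, min q.2.2 e) ω with hU
  have hUm : Measurable U := measurable_pi_lambda _ fun q => h.meas _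
  have hind := h.indep_past e
  set A : Set (ι × ℝ≥0 × ℝ≥0 → ℝ) := {u | ∀ l, 1 ≤ (K : ℝ≥0) * σ (i l) ∧
    ‖fun c => u (c, σ (i l), (i l : ℝ≥0) * stp n)‖ ≤ rad K n} with hA
  have hAm : MeasurableSet A := by
    rw [hA, Set.setOf_forall]
    refine MeasurableSet.iInter fun l => ?_
    by_cases hc' : 1 ≤ (K : ℝ≥0) * σ (i l)
    · simp only [hc', true_and]
      exact measurableSet_le (measurable_pi_lambda _ fun c => measurable_pi_apply _).norm
        measurable_const
    · simp only [hc', false_and]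
      exact MeasurableSet.empty
  set B : Set ((ι × ℝ≥0 × ℝ≥0 → ℝ) × (ι × ℝ≥0 × ℝ≥0 → ℝ)) :=
    {w | ‖fun c => w.1 (c, σ x, e) + w.2 (c, σ x, (x : ℝ≥0) * stp n)‖ ≤ rad K n} with hB
  have hBm : MeasurableSet B := by
    refine measurableSet_le ?_ measurable_const
    refine Measurable.norm (measurable_pi_lambda _ fun c => ?_)
    exact ((measurable_pi_apply _).comp measurable_fst).add
      ((measurable_pi_apply _).comp measurable_snd)
  have key := measure_inter_le_of_indep (P := P) hUm (h.meas_pW e) hind hAm hBm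
    (c := ENNReal.ofReal ((rad K n * K) ^ Fintype.card ι)) (by
      intro u
      have h1 := h.small_ball (σ x) e (x * stp n) hσ0 hex (rad_nonneg K n)
        (fun c => - u (c, σ x, e))
      have hset : {ω | (u, pW X e ω) ∈ B} = {ω | ‖(fun c => X (c, σ x, x * stp n) ω -
          X (c, σ x, e) ω) - (fun c => - u (c, σ x, e))‖ ≤ rad K n} := by
        ext ω
        simp only [hB, Set.mem_setOf_eq]
        have : (fun c => u (c, σ x, e) + pW X e ω (c, σ x, (x : ℝ≥0) * stp n)) =
            (fun c => X (c, σ x, x * stp n) ω - X (c, σ x, e) ω) - (fun c => - u (c, σ x, e)) := by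
          funext c
          simp only [pW, max_eq_left hex.le, Pi.sub_apply]
          ring
        rw [this]
      rw [hset]
      set v : ℝ≥0 := σ x * (x * stp n - e) with hv
      have hvge : (1 / (K : ℝ≥0)) * (1 / K) ≤ v := by
        have e1 : (x : ℝ≥0) * stp n - e = ((x - a : ℕ) : ℝ≥0) * stp n := by
          rw [he, ← tsub_mul, Nat.cast_tsub]
        rw [hv, e1]
        have h3 : 1 / (K : ℝ≥0) ≤ ((x - a : ℕ) : ℝ≥0) * stp n := by
          rw [div_le_iff₀ hK', mul_comm]
          exact hgap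
        gcongr
      have hKr : (0 : ℝ) < K := by exact_mod_cast hK'
      have hvr : (1 / (K : ℝ)) * (1 / K) ≤ (v : ℝ) := by
        have := NNReal.coe_le_coe.2 hvge
        push_cast at this
        exact this
      have hsq : 1 / (K : ℝ) ≤ √(v : ℝ) := by
        apply Real.le_sqrt_of_sq_le
        rw [sq]
        exact hvr
      refine h1.trans ?_
      rw [ENNReal.ofReal_pow (mul_nonneg (rad_nonneg K n) hKr.le)]
      gcongr
      have hr := rad_nonneg K n
      have hsq0 : 0 < √(v : ℝ) := lt_of_lt_of_le (by positivity) hsq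
      rw [div_le_iff₀ hsq0]
      calc rad K n = rad K n * (K * (1 / K)) := by field_simp
        _ ≤ rad K n * (K * √(v : ℝ)) := by gcongr
        _ = _ := by ring)
  have hmin : ∀ l, min ((i l : ℝ≥0) * stp n) e = (i l : ℝ≥0) * stp n := by
    intro l
    apply min_eq_left
    rw [he]
    have : (i l : ℝ≥0) ≤ a := by exact_mod_cast hi l
    gcongr
  have hUA : ∀ ω, U ω ∈ A ↔ ∀ l, ω ∈ lineE X K n σ (i l) := by
    intro ω
    simp only [hU, hA, lineE, Set.mem_setOf_eq, hmin]
  calc P {ω | (∀ l, ω ∈ lineE X K n σ (i l)) ∧ ω ∈ lineE X K n σ x}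
      ≤ P {ω | U ω ∈ A ∧ (U ω, pW X e ω) ∈ B} := by
        refine measure_mono fun ω hω => ?_
        refine ⟨(hUA ω).2 hω.1, ?_⟩
        have h8 := hω.2.2
        simp only [hU, hB, Set.mem_setOf_eq, min_self]
        have : (fun c => X (c, σ x, e) ω + pW X e ω (c, σ x, (x : ℝ≥0) * stp n)) =
            fun c => X (c, σ x, x * stp n) ω := by
          funext c
          simp only [pW, max_eq_left hex.le]
          ring
        rw [this]
        exact h8
    _ ≤ _ := key
    _ = _ := by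
        congr 2
        ext ω
        exact hUA ω


lemma triple_le (h : IsSheet X P) {K n : ℕ} (hK : 1 ≤ K) (σ : ℕ → ℝ≥0) {a b c : ℕ}
    (ha : 1 ≤ (K : ℝ≥0) * ((a : ℝ≥0) * stp n))
    (hab : a < b) (hab' : 1 ≤ (K : ℝ≥0) * (((b - a : ℕ) : ℝ≥0) * stp n))
    (hbc : b < c) (hbc' : 1 ≤ (K : ℝ≥0) * (((c - b : ℕ) : ℝ≥0) * stp n)) :
    P {ω | ω ∈ lineE X K n σ a ∧ ω ∈ lineE X K n σ b ∧ ω ∈ lineE X K n σ c} ≤
      ENNReal.ofReal ((rad K n * K) ^ Fintype.card ι) ^ 3 := by
  set q := ENNReal.ofReal ((rad K n * K) ^ Fintype.card ι) with hq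
  have ha0 : 0 < a := by
    rcases Nat.eq_zero_or_pos a with h0 | h0
    · rw [h0] at ha
      simp at ha
    · exact h0
  have s1 : P {ω | ω ∈ lineE X K n σ a} ≤ q := by
    have := lineC_step h hK σ (k := 0) (fun l => l.elim0) 0 a (fun l => l.elim0) ha0
      (by rw [Nat.sub_zero]; exact ha)
    simp only [IsEmpty.forall_iff, true_and, Set.setOf_true, measure_univ, one_mul] at this
    exact this
  have s2 : P {ω | ω ∈ lineE X K n σ a ∧ ω ∈ lineE X K n σ b} ≤
      P {ω | ω ∈ lineE X K n σ a} * q := by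
    have := lineC_step h hK σ (k := 1) (fun _ => a) a b (fun _ => le_rfl) hab hab'
    simpa using this
  have s3 : P {ω | ω ∈ lineE X K n σ a ∧ ω ∈ lineE X K n σ b ∧ ω ∈ lineE X K n σ c} ≤
      P {ω | ω ∈ lineE X K n σ a ∧ ω ∈ lineE X K n σ b} * q := by
    have := lineC_step h hK σ (k := 2) ![a, b] b c (by
      intro l
      fin_cases l
      · exact hab.le
      · exact le_rfl) hbc hbc'
    simp only [Fin.forall_fin_two, Matrix.cons_val_zero, Matrix.cons_val_one] at this
    refine le_trans (le_of_eq ?_) this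
    congr 1
    ext ω
    simp only [Set.mem_setOf_eq, and_assoc]
  calc _ ≤ _ := s3
    _ ≤ (P {ω | ω ∈ lineE X K n σ a} * q) * q := by gcongr
    _ ≤ (q * q) * q := by gcongr
    _ = q ^ 3 := by ring

end Pool.Agent.Helper41
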