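import Mathlib
import Pool.Agent.Helper41.BS2.Step3
import Pool.Agent.Helper41.Dim

open MeasureTheory ProbabilityTheory Filter Topology
open scoped ENNReal NNReal

namespace Pool.Agent.Helper41

variable {Ω : Type*} [MeasurableSpace Ω] {P : Measure Ω} [IsProbabilityMeasure P]
variable {ι : Type*} [DecidableEq ι] {X : ι × ℝ≥0 × ℝ≥0 → Ω → ℝ} [Fintype ι]

lemma qq_eight : qq ^ 8 = 1 / 16 := by
  have h := qq_sq
  calc qq ^ 8 = (qq ^ 2) ^ 4 := by ring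
    _ = 1 / 16 := by rw [h]; norm_num

lemma summable_qq (L : ℕ) : Summable (fun n : ℕ => ((n : ℝ) + 4) ^ L * qq ^ n) := by
  have hq0 := qq_pos
  have hq1 : qq < 1 := lt_trans qq_lt (by norm_num)
  have h1 : Summable (fun n : ℕ => (n : ℝ) ^ L * qq ^ n) :=
    summable_pow_mul_geometric_of_norm_lt_one L (by
      rw [Real.norm_eq_abs, abs_of_pos hq0]; exact hq1)
  have := (summable_nat_add_iff 4).2 h1
  have h3 := this.mul_left ((qq ^ 4)⁻¹)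
  refine h3.congr fun n => ?_
  push_cast
  rw [pow_add qq n 4]
  field_simp

theorem ae_no_triple (h : IsSheet X P) (hd : Fintype.card ι = 3) {K : ℕ} (hK : 1 ≤ K) :
    ∀ᵐ ω ∂P, ∀ᶠ n : ℕ in atTop, ∀ j a b c : ℕ, j ≤ K * 2 ^ n → a ≤ K * 2 ^ n → b ≤ K * 2 ^ n →
      c ≤ K * 2 ^ n →
      1 ≤ (K : ℝ≥0) * ((a : ℝ≥0) * stp n) →
      a < b → 1 ≤ (K : ℝ≥0) * (((b - a : ℕ) : ℝ≥0) * stp n) →
      b < c → 1 ≤ (K : ℝ≥0) * (((c - b : ℕ) : ℝ≥0) * stp n) →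
      ¬ (ω ∈ lineE X K n (fun _ => (j : ℝ≥0) * stp n) a ∧
        ω ∈ lineE X K n (fun _ => (j : ℝ≥0) * stp n) b ∧
        ω ∈ lineE X K n (fun _ => (j : ℝ≥0) * stp n) c) := by
  classical
  let G : ℕ → Finset (ℕ × ℕ × ℕ × ℕ) := fun n =>
    ((Finset.range (K * 2 ^ n + 1)) ×ˢ (Finset.range (K * 2 ^ n + 1)) ×ˢ
      (Finset.range (K * 2 ^ n + 1)) ×ˢ (Finset.range (K * 2 ^ n + 1))).filter (fun p =>
        1 ≤ (K : ℝ≥0) * ((p.2.1 : ℝ≥0) * stp n) ∧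
        p.2.1 < p.2.2.1 ∧ 1 ≤ (K : ℝ≥0) * (((p.2.2.1 - p.2.1 : ℕ) : ℝ≥0) * stp n) ∧
        p.2.2.1 < p.2.2.2 ∧ 1 ≤ (K : ℝ≥0) * (((p.2.2.2 - p.2.2.1 : ℕ) : ℝ≥0) * stp n))
  let E : ℕ → ℕ × ℕ × ℕ × ℕ → Set Ω := fun n p =>
    {ω | ω ∈ lineE X K n (fun _ => (p.1 : ℝ≥0) * stp n) p.2.1 ∧
        ω ∈ lineE X K n (fun _ => (p.1 : ℝ≥0) * stp n) p.2.2.1 ∧
        ω ∈ lineE X K n (fun _ => (p.1 : ℝ≥0) * stp n) p.2.2.2}
  have hK' : (1 : ℝ) ≤ K := by exact_mod_cast hK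
  have hone : ∀ n, ∀ p ∈ G n, P (E n p) ≤ ENNReal.ofReal ((rad K n * K) ^ 3) ^ 3 := by
    intro n p hp
    simp only [G, Finset.mem_filter] at hp
    obtain ⟨-, h1, h2, h3, h4, h5⟩ := hp
    have := triple_le h hK (fun _ => (p.1 : ℝ≥0) * stp n) h1 h2 h3 h4 h5
    rw [hd] at this
    exact this
  have hcard : ∀ n, ((G n).card : ℝ) ≤ ((K : ℝ) * 2 ^ n + 1) ^ 4 := by
    intro n
    have h1 : (G n).card ≤ ((Finset.range (K * 2 ^ n + 1)) ×ˢ (Finset.range (K * 2 ^ n + 1)) ×ˢ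
      (Finset.range (K * 2 ^ n + 1)) ×ˢ (Finset.range (K * 2 ^ n + 1))).card :=
      Finset.card_filter_le _ _
    rw [Finset.card_product, Finset.card_product, Finset.card_product, Finset.card_range] at h1
    have h2 : ((G n).card : ℝ) ≤ (((K * 2 ^ n + 1) * ((K * 2 ^ n + 1) *
        ((K * 2 ^ n + 1) * (K * 2 ^ n + 1))) : ℕ) : ℝ) := by exact_mod_cast h1
    refine h2.trans (le_of_eq ?_)
    push_cast
    ring
  have hBad : ∀ n, P (⋃ p ∈ G n, E n p) ≤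
      ENNReal.ofReal (((2 * K) ^ 4 * (14 * √K * K) ^ 9) * (((n : ℝ) + 4) ^ 9 * qq ^ n)) := by
    intro n
    have hrn := rad_nonneg K n
    calc P (⋃ p ∈ G n, E n p) ≤ ∑ p ∈ G n, P (E n p) := measure_biUnion_finset_le _ _
      _ ≤ ∑ _p ∈ G n, ENNReal.ofReal ((rad K n * K) ^ 3) ^ 3 := Finset.sum_le_sum (hone n)
      _ = ENNReal.ofReal ((G n).card * ((rad K n * K) ^ 3) ^ 3) := by
          rw [Finset.sum_const, nsmul_eq_mul, ← ENNReal.ofReal_natCast,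
            ← ENNReal.ofReal_pow (by positivity), ← ENNReal.ofReal_mul (by positivity)]
      _ ≤ _ := by
          apply ENNReal.ofReal_le_ofReal
          have hq0 := qq_pos
          have h16 : (2 : ℝ) ^ n * 2 ^ n * (2 ^ n * 2 ^ n) = 16 ^ n := by
            rw [← mul_pow, ← mul_pow]; norm_num
          have h8 : (16 : ℝ) ^ n * (qq ^ n) ^ 9 = qq ^ n := by
            have e1 : (qq ^ n) ^ 9 = (qq ^ 8) ^ n * qq ^ n := by
              rw [← pow_mul, ← pow_mul, ← pow_add]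
              congr 1
              ring
            rw [e1, qq_eight, ← mul_assoc, ← mul_pow]
            norm_num
          have h2n : (1 : ℝ) ≤ 2 ^ n := one_le_pow₀ (by norm_num)
          calc ((G n).card : ℝ) * ((rad K n * K) ^ 3) ^ 3
              ≤ ((K : ℝ) * 2 ^ n + 1) ^ 4 * ((rad K n * K) ^ 3) ^ 3 := by
                gcongr
                exact hcard n
            _ ≤ (2 * K * 2 ^ n) ^ 4 * ((rad K n * K) ^ 3) ^ 3 := by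
                gcongr
                nlinarith
            _ = ((2 * K) ^ 4 * (14 * √K * K) ^ 9) * (((n : ℝ) + 4) ^ 9 *
                ((2 : ℝ) ^ n * 2 ^ n * (2 ^ n * 2 ^ n) * (qq ^ n) ^ 9)) := by
                unfold rad
                ring
            _ = _ := by rw [h16, h8]
  have hsum : ∑' n, P (⋃ p ∈ G n, E n p) ≠ ∞ := by
    refine ne_top_of_le_ne_top
      ((summable_qq 9).mul_left ((2 * K) ^ 4 * (14 * √K * K) ^ 9)).tsum_ofReal_ne_top ?_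
    exact ENNReal.tsum_le_tsum hBad
  filter_upwards [ae_eventually_notMem hsum] with ω hω
  filter_upwards [hω] with n hn j a b c hj ha hb hc h1 h2 h3 h4 h5 hcon
  simp only [Set.mem_iUnion, not_exists] at hn
  refine hn (j, a, b, c) ?_ hcon
  simp only [G, Finset.mem_filter, Finset.mem_product, Finset.mem_range]
  exact ⟨⟨by omega, by omega, by omega, by omega⟩, h1, h2, h3, h4, h5⟩

/-- near zero on the grid from a zero -/
lemma mem_lineE_of_zero {ω : Ω} {K n : ℕ} (hnK : K ≤ n)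
    (hcont : ∀ c, Continuous (fun p : ℝ≥0 × ℝ≥0 => X (c, p.1, p.2) ω))
    (hn : ∀ m, n ≤ m → ∀ c, EdgeBound (fun s t => X (c, s, t) ω) K m (edgeE K m))
    {s t : ℝ≥0} (hsK : s ≤ K) (htK : t ≤ K) (hs2 : 2 ≤ (K : ℝ≥0) * s)
    (hz : ∀ c, X (c, s, t) ω = 0) :
    ω ∈ lineE X K n (fun _ => ((⌊s * 2 ^ n⌋₊ : ℕ) : ℝ≥0) * stp n) ⌊t * 2 ^ n⌋₊ := by
  have hK2 : (K : ℝ≥0) ≤ 2 ^ n := by
    have : K ≤ 2 ^ n := hnK.trans (Nat.lt_two_pow_self.le)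
    exact_mod_cast this
  have hflt : fl n t = (⌊t * 2 ^ n⌋₊ : ℕ) * stp n := by
    unfold fl stp
    rw [mul_one_div]
  have hfls : fl n s = (⌊s * 2 ^ n⌋₊ : ℕ) * stp n := by
    unfold fl stp
    rw [mul_one_div]
  have hflow : 1 ≤ (K : ℝ≥0) * fl n s := by
    have h1 : s ≤ fl n s + stp n := le_fl_add n s
    have h2 : (K : ℝ≥0) * stp n ≤ 1 := by
      unfold stp
      rw [mul_one_div, div_le_one (by positivity)]
      exact hK2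
    have h3 : (1 : ℝ≥0) + 1 ≤ K * fl n s + 1 := by
      calc (1 : ℝ≥0) + 1 = 2 := by norm_num
        _ ≤ K * s := hs2
        _ ≤ K * (fl n s + stp n) := by gcongr
        _ = K * fl n s + K * stp n := by ring
        _ ≤ _ := by gcongr
    exact le_of_add_le_add_right h3
  unfold lineE
  simp only [Set.mem_setOf_eq]
  rw [← hfls, ← hflt]
  refine ⟨hflow, ?_⟩
  rw [pi_norm_le_iff_of_nonneg (rad_nonneg K n)]
  intro c
  have hch : |X (c, s, t) ω - X (c, fl n s, fl n t) ω| ≤ 7 * √K * (n + 4) * qq ^ n := by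
    refine chain_bound (f := fun s t => X (c, s, t) ω) (Real.sqrt_nonneg _)
      (fun m hm => ?_) hsK htK ?_
    · have := hn m hm c
      unfold edgeE at this
      exact this
    · have h1 := (hcont c).tendsto (s, t)
      have h2 : Tendsto (fun m => (fl m s, fl m t)) atTop (𝓝 (s, t)) :=
        (tendsto_fl s).prodMk_nhds (tendsto_fl t)
      exact h1.comp h2
  rw [hz c, zero_sub, abs_neg] at hch
  rw [Real.norm_eq_abs]
  refine hch.trans ?_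
  unfold rad
  have := qq_pos
  gcongr
  norm_num

/-- grid gaps -/
lemma grid_gap {K n : ℕ} (hnK : K ≤ n) {t t' : ℝ≥0} (h : t + 2 / K ≤ t') (hK : 1 ≤ K) :
    ⌊t * 2 ^ n⌋₊ < ⌊t' * 2 ^ n⌋₊ ∧
      1 ≤ (K : ℝ≥0) * (((⌊t' * 2 ^ n⌋₊ - ⌊t * 2 ^ n⌋₊ : ℕ) : ℝ≥0) * stp n) := by
  have hK2 : (K : ℝ) ≤ 2 ^ n := by
    have : K ≤ 2 ^ n := hnK.trans (Nat.lt_two_pow_self.le)
    exact_mod_cast this
  have hK' : (1 : ℝ) ≤ K := by exact_mod_cast hK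
  have h' : (t : ℝ) + 2 / K ≤ t' := by exact_mod_cast h
  have h1 : ((⌊t * 2 ^ n⌋₊ : ℕ) : ℝ) ≤ (t : ℝ) * 2 ^ n := by
    have := Nat.floor_le (show 0 ≤ t * 2 ^ n from zero_le)
    exact_mod_cast this
  have h2 : (t' : ℝ) * 2 ^ n < ((⌊t' * 2 ^ n⌋₊ : ℕ) : ℝ) + 1 := by
    have := Nat.lt_floor_add_one (t' * 2 ^ n)
    exact_mod_cast this
  have h2n : (1 : ℝ) ≤ 2 ^ n := one_le_pow₀ (by norm_num)
  have h3 : (2 : ℝ) ^ n / K ≥ 1 := by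
    rw [ge_iff_le, le_div_iff₀ (by linarith)]
    linarith
  have h4 : ((⌊t * 2 ^ n⌋₊ : ℕ) : ℝ) + 2 ^ n / K < ((⌊t' * 2 ^ n⌋₊ : ℕ) : ℝ) := by
    have : ((t : ℝ) + 2 / K) * 2 ^ n ≤ t' * 2 ^ n := by gcongr
    have e : ((t : ℝ) + 2 / K) * 2 ^ n = t * 2 ^ n + 2 * (2 ^ n / K) := by ring
    linarith
  have h5 : ⌊t * 2 ^ n⌋₊ < ⌊t' * 2 ^ n⌋₊ := by
    have : ((⌊t * 2 ^ n⌋₊ : ℕ) : ℝ) < ((⌊t' * 2 ^ n⌋₊ : ℕ) : ℝ) := by linarith
    exact_mod_cast this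
  refine ⟨h5, ?_⟩
  have h6 : (1 : ℝ) ≤ (K : ℝ) * (((⌊t' * 2 ^ n⌋₊ - ⌊t * 2 ^ n⌋₊ : ℕ) : ℝ) * (1 / 2 ^ n)) := by
    rw [Nat.cast_sub h5.le]
    have h7 : (2 : ℝ) ^ n / K ≤ ((⌊t' * 2 ^ n⌋₊ : ℕ) : ℝ) - ((⌊t * 2 ^ n⌋₊ : ℕ) : ℝ) := by linarith
    calc (1 : ℝ) = K * ((2 ^ n / K) * (1 / 2 ^ n)) := by field_simp
      _ ≤ _ := by gcongr
  have e2 : (((K : ℝ≥0) * (((⌊t' * 2 ^ n⌋₊ - ⌊t * 2 ^ n⌋₊ : ℕ) : ℝ≥0) * stp n) : ℝ≥0) : ℝ) =
      (K : ℝ) * (((⌊t' * 2 ^ n⌋₊ - ⌊t * 2 ^ n⌋₊ : ℕ) : ℝ) * (1 / 2 ^ n)) := by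
    rw [NNReal.coe_mul, NNReal.coe_mul, stp_coe, NNReal.coe_natCast, NNReal.coe_natCast]
  rw [← NNReal.coe_le_coe, e2]
  exact h6

/-- In dimension three almost surely no slice has three zeros. -/
theorem IsSheet.ae_no_three_zeros (h : IsSheet X P) (hd : Fintype.card ι = 3)
    (hcont : ∀ᵐ ω ∂P, ∀ c, Continuous (fun p : ℝ≥0 × ℝ≥0 => X (c, p.1, p.2) ω)) :
    ∀ᵐ ω ∂P, ∀ s t₁ t₂ t₃ : ℝ≥0, 0 < s → 0 < t₁ → t₁ < t₂ → t₂ < t₃ →
      (∀ c, X (c, s, t₁) ω = 0) → (∀ c, X (c, s, t₂) ω = 0) → (∀ c, X (c, s, t₃) ω = 0) →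
      False := by
  have hE : ∀ᵐ ω ∂P, ∀ K : ℕ, 1 ≤ K → ∀ c, ∀ᶠ n : ℕ in atTop,
      EdgeBound (fun s t => X (c, s, t) ω) K n (edgeE K n) := by
    rw [ae_all_iff]
    intro K
    by_cases hK : 1 ≤ K
    · have : ∀ᵐ ω ∂P, ∀ c, ∀ᶠ n : ℕ in atTop,
          EdgeBound (fun s t => X (c, s, t) ω) K n (edgeE K n) := by
        rw [ae_all_iff]
        intro c
        exact h.ae_edgeBound c K hK
      filter_upwards [this] with ω hω _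
      exact hω
    · exact Eventually.of_forall fun ω h' => absurd h' hK
  have hN : ∀ᵐ ω ∂P, ∀ K : ℕ, 1 ≤ K →
      ∀ᶠ n : ℕ in atTop, ∀ j a b c : ℕ, j ≤ K * 2 ^ n → a ≤ K * 2 ^ n → b ≤ K * 2 ^ n →
      c ≤ K * 2 ^ n →
      1 ≤ (K : ℝ≥0) * ((a : ℝ≥0) * stp n) →
      a < b → 1 ≤ (K : ℝ≥0) * (((b - a : ℕ) : ℝ≥0) * stp n) →
      b < c → 1 ≤ (K : ℝ≥0) * (((c - b : ℕ) : ℝ≥0) * stp n) →
      ¬ (ω ∈ lineE X K n (fun _ => (j : ℝ≥0) * stp n) a ∧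
        ω ∈ lineE X K n (fun _ => (j : ℝ≥0) * stp n) b ∧
        ω ∈ lineE X K n (fun _ => (j : ℝ≥0) * stp n) c) := by
    rw [ae_all_iff]
    intro K
    by_cases hK : 1 ≤ K
    · filter_upwards [ae_no_triple h hd hK] with ω hω _
      exact hω
    · exact Eventually.of_forall fun ω h' => absurd h' hK
  filter_upwards [hE, hN, hcont] with ω hωE hωN hωc s t₁ t₂ t₃ hs h1 h12 h23 hz1 hz2 hz3
  have hd1 : (0 : ℝ) < t₂ - t₁ := by
    have : (t₁ : ℝ) < t₂ := by exact_mod_cast h12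
    linarith
  have hd2 : (0 : ℝ) < t₃ - t₂ := by
    have : (t₂ : ℝ) < t₃ := by exact_mod_cast h23
    linarith
  have hs' : (0 : ℝ) < s := by exact_mod_cast hs
  have h1' : (0 : ℝ) < t₁ := by exact_mod_cast h1
  obtain ⟨K, hKb⟩ := exists_nat_ge (1 + s + t₃ + 2 / s + 2 / t₁ + 2 / (t₂ - t₁) + 2 / (t₃ - t₂) :
    ℝ)
  have p1 : 0 < 2 / (s : ℝ) := by positivity
  have p2 : 0 < 2 / (t₁ : ℝ) := by positivity
  have p3 : 0 < 2 / ((t₂ : ℝ) - t₁) := by positivity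
  have p4 : 0 < 2 / ((t₃ : ℝ) - t₂) := by positivity
  have p5 : (0 : ℝ) ≤ t₃ := t₃.2
  have hK1r : (1 : ℝ) ≤ K := by linarith
  have hK1 : 1 ≤ K := by exact_mod_cast hK1r
  have hK0 : (0 : ℝ) < K := by linarith
  have hsK : s ≤ K := by
    have : (s : ℝ) ≤ K := by linarith
    exact_mod_cast this
  have ht3K : t₃ ≤ K := by
    have : (t₃ : ℝ) ≤ K := by linarith
    exact_mod_cast this
  have ht2K : t₂ ≤ K := h23.le.trans ht3K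
  have ht1K : t₁ ≤ K := h12.le.trans ht2K
  have hs2 : 2 ≤ (K : ℝ≥0) * s := by
    have h2 : 2 / (s : ℝ) ≤ K := by linarith
    rw [div_le_iff₀ hs'] at h2
    exact_mod_cast h2
  have key : ∀ x : ℝ, 0 < x → 2 / x ≤ K → 2 / (K : ℝ) ≤ x := by
    intro x hx h2
    rw [div_le_iff₀ hx] at h2
    rw [div_le_iff₀ hK0]
    linarith
  have g1 : (0 : ℝ≥0) + 2 / K ≤ t₁ := by
    have := key t₁ h1' (by linarith)
    rw [zero_add]
    exact_mod_cast this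
  have g2 : t₁ + 2 / K ≤ t₂ := by
    have := key (t₂ - t₁) hd1 (by linarith)
    have h2 : (t₁ : ℝ) + 2 / K ≤ t₂ := by linarith
    exact_mod_cast h2
  have g3 : t₂ + 2 / K ≤ t₃ := by
    have := key (t₃ - t₂) hd2 (by linarith)
    have h2 : (t₂ : ℝ) + 2 / K ≤ t₃ := by linarith
    exact_mod_cast h2
  have hE' : ∀ᶠ n : ℕ in atTop, ∀ m, n ≤ m → ∀ c,
      EdgeBound (fun s t => X (c, s, t) ω) K m (edgeE K m) := by
    have := eventually_all.2 (hωE K hK1)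
    obtain ⟨N, hN'⟩ := eventually_atTop.1 this
    filter_upwards [eventually_ge_atTop N] with n hn m hm c
    exact hN' m (hn.trans hm) c
  obtain ⟨n, hn1, hn2, hnK⟩ := (hE'.and ((hωN K hK1).and (eventually_ge_atTop K))).exists
  have hfloor : ∀ x : ℝ≥0, x ≤ K → ⌊x * 2 ^ n⌋₊ ≤ K * 2 ^ n := by
    intro x hx
    apply Nat.floor_le_of_le
    push_cast
    gcongr
  have q1 := grid_gap hnK g1 hK1
  have q2 := grid_gap hnK g2 hK1
  have q3 := grid_gap hnK g3 hK1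
  have e0 : ⌊(0 : ℝ≥0) * 2 ^ n⌋₊ = 0 := by simp
  rw [e0, Nat.sub_zero] at q1
  exact hn2 ⌊s * 2 ^ n⌋₊ ⌊t₁ * 2 ^ n⌋₊ ⌊t₂ * 2 ^ n⌋₊ ⌊t₃ * 2 ^ n⌋₊ (hfloor _ hsK) (hfloor _ ht1K)
    (hfloor _ ht2K) (hfloor _ ht3K) q1.2 q2.1 q2.2 q3.1 q3.2
    ⟨mem_lineE_of_zero hnK hωc hn1 hsK ht1K hs2 hz1,
      mem_lineE_of_zero hnK hωc hn1 hsK ht2K hs2 hz2,
      mem_lineE_of_zero hnK hωc hn1 hsK ht3K hs2 hz3⟩

end Pool.Agent.Helper41
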