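import Mathlib
import Pool.Agent.Helper41.BS2.NoTriple

open MeasureTheory ProbabilityTheory Filter Topology
open scoped ENNReal NNReal

namespace Pool.Agent.Helper41

variable {Ω : Type*} [MeasurableSpace Ω] {P : Measure Ω} [IsProbabilityMeasure P]
variable {ι : Type*} [DecidableEq ι] {X : ι × ℝ≥0 × ℝ≥0 → Ω → ℝ} [Fintype ι]

/-- near double point of the slice at `s` at the grid times `a`, `b` -/
def pairE (X : ι × ℝ≥0 × ℝ≥0 → Ω → ℝ) (K n : ℕ) (s : ℝ≥0) (a b : ℕ) : Set Ω :=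
  {ω | 1 ≤ (K : ℝ≥0) * s ∧
    ‖(fun c => X (c, s, b * stp n) ω) - fun c => X (c, s, a * stp n) ω‖ ≤ rad K n}

lemma pair_step (h : IsSheet X P) {K n : ℕ} (hK : 1 ≤ K) (s : ℝ≥0) {k : ℕ}
    (i j : Fin k → ℕ) (z a x : ℕ) (hi : ∀ l, i l ≤ z) (hj : ∀ l, j l ≤ z) (haz : a ≤ z)
    (hzx : z < x) (hgap : 1 ≤ (K : ℝ≥0) * (((x - z : ℕ) : ℝ≥0) * stp n)) :
    P {ω | (∀ l, ω ∈ pairE X K n s (i l) (j l)) ∧ ω ∈ pairE X K n s a x} ≤
      P {ω | ∀ l, ω ∈ pairE X K n s (i l) (j l)} *
        ENNReal.ofReal ((rad K n * K) ^ Fintype.card ι) := by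
  have hK' : (0 : ℝ≥0) < K := by exact_mod_cast hK
  by_cases hc : 1 ≤ (K : ℝ≥0) * s
  swap
  · have : {ω | (∀ l, ω ∈ pairE X K n s (i l) (j l)) ∧ ω ∈ pairE X K n s a x} = ∅ := by
      ext ω
      simp only [Set.mem_setOf_eq, Set.mem_empty_iff_false, iff_false, not_and]
      intro _ hω
      exact hc hω.1
    rw [this, measure_empty]
    exact bot_le
  set e : ℝ≥0 := z * stp n with he
  have hst := stp_pos n
  have hex : e < x * stp n := by
    rw [he]
    have : (z : ℝ≥0) < x := by exact_mod_cast hzx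
    exact mul_lt_mul_of_pos_right this hst
  have hσ : 1 / (K : ℝ≥0) ≤ s := by
    rw [div_le_iff₀ hK', mul_comm]
    exact hc
  have hσ0 : 0 < s := lt_of_lt_of_le (by positivity) hσ
  set U : Ω → (ι × ℝ≥0 × ℝ≥0 → ℝ) := fun ω q => X (q.1, q.2.1, min q.2.2 e) ω with hU
  have hUm : Measurable U := measurable_pi_lambda _ fun q => h.meas _
  have hind := h.indep_past e
  set A : Set (ι × ℝ≥0 × ℝ≥0 → ℝ) := {u | ∀ l, 1 ≤ (K : ℝ≥0) * s ∧
    ‖(fun c => u (c, s, (j l : ℝ≥0) * stp n)) - fun c => u (c, s, (i l : ℝ≥0) * stp n)‖ ≤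
      rad K n} with hA
  have hAm : MeasurableSet A := by
    rw [hA, Set.setOf_forall]
    refine MeasurableSet.iInter fun l => ?_
    simp only [hc, true_and]
    refine measurableSet_le (Measurable.norm ?_) measurable_const
    have m1 : Measurable (fun (u : ι × ℝ≥0 × ℝ≥0 → ℝ) (c : ι) => u (c, s, (j l : ℝ≥0) * stp n)) := by
      refine measurable_pi_iff.2 fun c => ?_
      exact measurable_pi_apply (c, s, (j l : ℝ≥0) * stp n)
    have m2 : Measurable (fun (u : ι × ℝ≥0 × ℝ≥0 → ℝ) (c : ι) => u (c, s, (i l : ℝ≥0) * stp n)) := by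
      refine measurable_pi_iff.2 fun c => ?_
      exact measurable_pi_apply (c, s, (i l : ℝ≥0) * stp n)
    exact m1.sub m2
  set B : Set ((ι × ℝ≥0 × ℝ≥0 → ℝ) × (ι × ℝ≥0 × ℝ≥0 → ℝ)) :=
    {w | ‖fun c => w.1 (c, s, e) + w.2 (c, s, (x : ℝ≥0) * stp n) -
      w.1 (c, s, (a : ℝ≥0) * stp n)‖ ≤ rad K n} with hB
  have hBm : MeasurableSet B := by
    refine measurableSet_le ?_ measurable_const
    refine Measurable.norm (measurable_pi_lambda _ fun c => ?_)
    have m1 : Measurable (fun w : (ι × ℝ≥0 × ℝ≥0 → ℝ) × (ι × ℝ≥0 × ℝ≥0 → ℝ) => w.1 (c, s, e)) :=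
      (measurable_pi_apply (c, s, e)).comp measurable_fst
    have m2 : Measurable (fun w : (ι × ℝ≥0 × ℝ≥0 → ℝ) × (ι × ℝ≥0 × ℝ≥0 → ℝ) =>
        w.2 (c, s, (x : ℝ≥0) * stp n)) :=
      (measurable_pi_apply (c, s, (x : ℝ≥0) * stp n)).comp measurable_snd
    have m3 : Measurable (fun w : (ι × ℝ≥0 × ℝ≥0 → ℝ) × (ι × ℝ≥0 × ℝ≥0 → ℝ) =>
        w.1 (c, s, (a : ℝ≥0) * stp n)) :=
      (measurable_pi_apply (c, s, (a : ℝ≥0) * stp n)).comp measurable_fst
    exact (m1.add m2).sub m3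
  have key := measure_inter_le_of_indep (P := P) hUm (h.meas_pW e) hind hAm hBm
    (c := ENNReal.ofReal ((rad K n * K) ^ Fintype.card ι)) (by
      intro u
      have h1 := h.small_ball s e (x * stp n) hσ0 hex (rad_nonneg K n)
        (fun c => u (c, s, (a : ℝ≥0) * stp n) - u (c, s, e))
      have hset : {ω | (u, pW X e ω) ∈ B} = {ω | ‖(fun c => X (c, s, x * stp n) ω -
          X (c, s, e) ω) - (fun c => u (c, s, (a : ℝ≥0) * stp n) - u (c, s, e))‖ ≤ rad K n} := by
        ext ω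
        simp only [hB, Set.mem_setOf_eq]
        have : (fun c => u (c, s, e) + pW X e ω (c, s, (x : ℝ≥0) * stp n) -
            u (c, s, (a : ℝ≥0) * stp n)) =
            (fun c => X (c, s, x * stp n) ω - X (c, s, e) ω) -
              (fun c => u (c, s, (a : ℝ≥0) * stp n) - u (c, s, e)) := by
          funext c
          simp only [pW, max_eq_left hex.le, Pi.sub_apply]
          ring
        rw [this]
      rw [hset]
      set v : ℝ≥0 := s * (x * stp n - e) with hv
      have hvge : (1 / (K : ℝ≥0)) * (1 / K) ≤ v := by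
        have e1 : (x : ℝ≥0) * stp n - e = ((x - z : ℕ) : ℝ≥0) * stp n := by
          rw [he, ← tsub_mul, Nat.cast_tsub]
        rw [hv, e1]
        have h3 : 1 / (K : ℝ≥0) ≤ ((x - z : ℕ) : ℝ≥0) * stp n := by
          rw [div_le_iff₀ hK', mul_comm]
          exact hgap
        gcongr
      have hKr : (0 : ℝ) < K := by exact_mod_cast hK'
      have hvr : (1 / (K : ℝ)) * (1 / K) ≤ (v : ℝ) := by
        have := NNReal.coe_le_coe.2 hvge
        push_cast at this
        exact this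
      have hsq : 1 / (K : ℝ) ≤ √(v : ℝ) := by
        apply Real.le_sqrt_of_sq_le
        rw [sq]
        exact hvr
      refine h1.trans ?_
      rw [ENNReal.ofReal_pow (mul_nonneg (rad_nonneg K n) hKr.le)]
      gcongr
      have hr := rad_nonneg K n
      have hsq0 : 0 < √(v : ℝ) := lt_of_lt_of_le (by positivity) hsq
      rw [div_le_iff₀ hsq0]
      calc rad K n = rad K n * (K * (1 / K)) := by field_simp
        _ ≤ rad K n * (K * √(v : ℝ)) := by gcongr
        _ = _ := by ring)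
  have hmin : ∀ y : ℕ, y ≤ z → min ((y : ℝ≥0) * stp n) e = (y : ℝ≥0) * stp n := by
    intro y hy
    apply min_eq_left
    rw [he]
    have : (y : ℝ≥0) ≤ z := by exact_mod_cast hy
    gcongr
  have hUA : ∀ ω, U ω ∈ A ↔ ∀ l, ω ∈ pairE X K n s (i l) (j l) := by
    intro ω
    have e1 : ∀ l, min ((i l : ℝ≥0) * stp n) e = (i l : ℝ≥0) * stp n := fun l => hmin _ (hi l)
    have e2 : ∀ l, min ((j l : ℝ≥0) * stp n) e = (j l : ℝ≥0) * stp n := fun l => hmin _ (hj l)
    simp only [hU, hA, pairE, Set.mem_setOf_eq, e1, e2]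
  calc P {ω | (∀ l, ω ∈ pairE X K n s (i l) (j l)) ∧ ω ∈ pairE X K n s a x}
      ≤ P {ω | U ω ∈ A ∧ (U ω, pW X e ω) ∈ B} := by
        refine measure_mono fun ω hω => ?_
        refine ⟨(hUA ω).2 hω.1, ?_⟩
        have h8 := hω.2.2
        simp only [hU, hB, Set.mem_setOf_eq, min_self]
        have : (fun c => X (c, s, e) ω + pW X e ω (c, s, (x : ℝ≥0) * stp n) -
            X (c, s, min ((a : ℝ≥0) * stp n) e) ω) =
            (fun c => X (c, s, x * stp n) ω) - fun c => X (c, s, a * stp n) ω := by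
          funext c
          simp only [pW, max_eq_left hex.le, hmin a haz, Pi.sub_apply]
          ring
        rw [this]
        exact h8
    _ ≤ _ := key
    _ = _ := by
        congr 2
        ext ω
        exact hUA ω

end Pool.Agent.Helper41
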