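import Mathlib
import Pool.Agent.Helper41.BS2.PairStep

open MeasureTheory ProbabilityTheory Filter Topology
open scoped ENNReal NNReal

namespace Pool.Agent.Helper41

variable {Ω : Type*} [MeasurableSpace Ω] {P : Measure Ω} [IsProbabilityMeasure P]
variable {ι : Type*} [DecidableEq ι] {X : ι × ℝ≥0 × ℝ≥0 → Ω → ℝ} [Fintype ι]

theorem ae_no_config {q m : ℕ} (hqm : 2 * q + 1 ≤ m) {K : ℕ} (hK : 1 ≤ K)
    (E : ℕ → (Fin q → ℕ) → Set Ω)
    (hE : ∀ n p, P (E n p) ≤ ENNReal.ofReal ((rad K n * K) ^ m)) :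
    ∀ᵐ ω ∂P, ∀ᶠ n : ℕ in atTop, ∀ p : Fin q → ℕ, (∀ i, p i ≤ K * 2 ^ n) → ω ∉ E n p := by
  classical
  let G : ℕ → Finset (Fin q → ℕ) := fun n => Fintype.piFinset fun _ => Finset.range (K * 2 ^ n + 1)
  have hK' : (1 : ℝ) ≤ K := by exact_mod_cast hK
  have hcard : ∀ n, ((G n).card : ℝ) = ((K : ℝ) * 2 ^ n + 1) ^ q := by
    intro n
    simp only [G]
    rw [Fintype.card_piFinset]
    simp
  have hBad : ∀ n, P (⋃ p ∈ G n, E n p) ≤
      ENNReal.ofReal (((2 * K) ^ q * (14 * √K * K) ^ m) * (((n : ℝ) + 4) ^ m * qq ^ n)) := by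
    intro n
    have hrn := rad_nonneg K n
    have hq0 := qq_pos
    have hq1 : qq < 1 := lt_trans qq_lt (by norm_num)
    calc P (⋃ p ∈ G n, E n p) ≤ ∑ p ∈ G n, P (E n p) := measure_biUnion_finset_le _ _
      _ ≤ ∑ _p ∈ G n, ENNReal.ofReal ((rad K n * K) ^ m) := Finset.sum_le_sum fun p _ => hE n p
      _ = ENNReal.ofReal ((G n).card * ((rad K n * K) ^ m)) := by
          rw [Finset.sum_const, nsmul_eq_mul, ← ENNReal.ofReal_natCast,
            ← ENNReal.ofReal_mul (by positivity)]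
      _ ≤ _ := by
          apply ENNReal.ofReal_le_ofReal
          have h2n : (1 : ℝ) ≤ 2 ^ n := one_le_pow₀ (by norm_num)
          have hkey : (2 ^ n) ^ q * (qq ^ n) ^ m ≤ qq ^ n := by
            have e1 : (qq ^ n) ^ m ≤ (qq ^ n) ^ (2 * q + 1) :=
              pow_le_pow_of_le_one (by positivity) (pow_le_one₀ hq0.le hq1.le) hqm
            have e2 : ((2 : ℝ) ^ n) ^ q * (qq ^ n) ^ (2 * q) = 1 := by
              have e3 : (qq ^ n) ^ (2 * q) = ((qq ^ 2) ^ n) ^ q := by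
                rw [← pow_mul, ← pow_mul, ← pow_mul]
                congr 1
                ring
              rw [e3, qq_sq, ← mul_pow, ← mul_pow]
              norm_num
            calc ((2 : ℝ) ^ n) ^ q * (qq ^ n) ^ m ≤ (2 ^ n) ^ q * (qq ^ n) ^ (2 * q + 1) := by
                  gcongr
              _ = ((2 ^ n) ^ q * (qq ^ n) ^ (2 * q)) * qq ^ n := by ring
              _ = qq ^ n := by rw [e2, one_mul]
          calc ((G n).card : ℝ) * ((rad K n * K) ^ m)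
              = ((K : ℝ) * 2 ^ n + 1) ^ q * ((rad K n * K) ^ m) := by rw [hcard]
            _ ≤ (2 * K * 2 ^ n) ^ q * ((rad K n * K) ^ m) := by
                gcongr
                nlinarith
            _ = ((2 * K) ^ q * (14 * √K * K) ^ m) * (((n : ℝ) + 4) ^ m *
                ((2 ^ n) ^ q * (qq ^ n) ^ m)) := by
                have e4 : rad K n * K = (14 * √K * K) * ((n : ℝ) + 4) * qq ^ n := by
                  unfold rad
                  ring
                rw [e4, mul_pow (2 * (K : ℝ)) _ q, mul_pow (14 * √(K : ℝ) * K * ((n : ℝ) + 4)) _ m,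
                  mul_pow (14 * √(K : ℝ) * K) _ m]
                ring
            _ ≤ _ := by gcongr
  have hsum : ∑' n, P (⋃ p ∈ G n, E n p) ≠ ∞ := by
    refine ne_top_of_le_ne_top
      ((summable_qq m).mul_left ((2 * K) ^ q * (14 * √K * K) ^ m)).tsum_ofReal_ne_top ?_
    exact ENNReal.tsum_le_tsum hBad
  filter_upwards [ae_eventually_notMem hsum] with ω hω
  filter_upwards [hω] with n hn p hp hcon
  simp only [Set.mem_iUnion, not_exists] at hn
  refine hn p ?_ hcon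
  simp only [G, Fintype.mem_piFinset, Finset.mem_range]
  intro i
  have := hp i
  omega

/-- grid gap condition -/
def gp (K n a b : ℕ) : Prop := a < b ∧ 1 ≤ (K : ℝ≥0) * (((b - a : ℕ) : ℝ≥0) * stp n)

lemma gp_max {K n a b x : ℕ} (h1 : gp K n a x) (h2 : gp K n b x) : gp K n (max a b) x := by
  rcases le_total a b with h | h
  · rw [max_eq_right h]; exact h2
  · rw [max_eq_left h]; exact h1

lemma pairE1_le (h : IsSheet X P) {K n : ℕ} (hK : 1 ≤ K) (s : ℝ≥0) {a b : ℕ} (hab : gp K n a b) :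
    P (pairE X K n s a b) ≤ ENNReal.ofReal ((rad K n * K) ^ Fintype.card ι) := by
  have := pair_step h hK s (k := 0) (fun l => l.elim0) (fun l => l.elim0) a a b
    (fun l => l.elim0) (fun l => l.elim0) le_rfl hab.1 hab.2
  simp only [IsEmpty.forall_iff, true_and, Set.setOf_true, measure_univ, one_mul] at this
  exact this

lemma pairE2_le (h : IsSheet X P) {K n : ℕ} (hK : 1 ≤ K) (s : ℝ≥0) {a₁ b₁ a₂ b₂ : ℕ}
    (h1 : gp K n a₁ b₁) (h12 : gp K n b₁ b₂) (h2 : gp K n a₂ b₂) :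
    P {ω | ω ∈ pairE X K n s a₁ b₁ ∧ ω ∈ pairE X K n s a₂ b₂} ≤
      ENNReal.ofReal ((rad K n * K) ^ Fintype.card ι) ^ 2 := by
  have hz := gp_max h12 h2
  have := pair_step h hK s (k := 1) (fun _ => a₁) (fun _ => b₁) (max b₁ a₂) a₂ b₂
    (fun _ => h1.1.le.trans (le_max_left _ _)) (fun _ => le_max_left _ _) (le_max_right _ _)
    hz.1 hz.2
  simp only [forall_const] at this
  calc _ ≤ _ := this
    _ ≤ ENNReal.ofReal ((rad K n * K) ^ Fintype.card ι) *
        ENNReal.ofReal ((rad K n * K) ^ Fintype.card ι) := by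
        gcongr
        exact pairE1_le h hK s h1
    _ = _ := (sq _).symm

lemma pairE3_le (h : IsSheet X P) {K n : ℕ} (hK : 1 ≤ K) (s : ℝ≥0) {a₁ b₁ a₂ b₂ a₃ b₃ : ℕ}
    (h1 : gp K n a₁ b₁) (h12 : gp K n b₁ b₂) (h2 : gp K n a₂ b₂) (h23 : gp K n b₂ b₃)
    (h3 : gp K n a₃ b₃) :
    P {ω | ω ∈ pairE X K n s a₁ b₁ ∧ ω ∈ pairE X K n s a₂ b₂ ∧ ω ∈ pairE X K n s a₃ b₃} ≤
      ENNReal.ofReal ((rad K n * K) ^ Fintype.card ι) ^ 3 := by
  have hz := gp_max h23 h3
  have := pair_step h hK s (k := 2) ![a₁, a₂] ![b₁, b₂] (max b₂ a₃) a₃ b₃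
    (by
      intro l
      fin_cases l
      · exact (h1.1.le.trans h12.1.le).trans (le_max_left _ _)
      · exact h2.1.le.trans (le_max_left _ _))
    (by
      intro l
      fin_cases l
      · exact h12.1.le.trans (le_max_left _ _)
      · exact le_max_left _ _) (le_max_right _ _) hz.1 hz.2
  simp only [Fin.forall_fin_two, Matrix.cons_val_zero, Matrix.cons_val_one] at this
  calc _ = P {ω | (ω ∈ pairE X K n s a₁ b₁ ∧ ω ∈ pairE X K n s a₂ b₂) ∧
        ω ∈ pairE X K n s a₃ b₃} := by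
        congr 1
        ext ω
        simp only [Set.mem_setOf_eq, and_assoc]
    _ ≤ _ := this
    _ ≤ ENNReal.ofReal ((rad K n * K) ^ Fintype.card ι) ^ 2 *
        ENNReal.ofReal ((rad K n * K) ^ Fintype.card ι) := by
        gcongr
        exact pairE2_le h hK s h1 h12 h2
    _ = _ := (pow_succ _ 2).symm

/-- near double point on the grid from a double point -/
lemma mem_pairE_of_eq {ω : Ω} {K n : ℕ} (hnK : K ≤ n)
    (hcont : ∀ c, Continuous (fun p : ℝ≥0 × ℝ≥0 => X (c, p.1, p.2) ω))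
    (hn : ∀ m, n ≤ m → ∀ c, EdgeBound (fun s t => X (c, s, t) ω) K m (edgeE K m))
    {s t t' : ℝ≥0} (hsK : s ≤ K) (htK : t ≤ K) (htK' : t' ≤ K) (hs2 : 2 ≤ (K : ℝ≥0) * s)
    (hz : ∀ c, X (c, s, t) ω = X (c, s, t') ω) :
    ω ∈ pairE X K n (((⌊s * 2 ^ n⌋₊ : ℕ) : ℝ≥0) * stp n) ⌊t * 2 ^ n⌋₊ ⌊t' * 2 ^ n⌋₊ := by
  have hK2 : (K : ℝ≥0) ≤ 2 ^ n := by
    have : K ≤ 2 ^ n := hnK.trans (Nat.lt_two_pow_self.le)
    exact_mod_cast this
  have hfl : ∀ y : ℝ≥0, fl n y = (⌊y * 2 ^ n⌋₊ : ℕ) * stp n := by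
    intro y
    unfold fl stp
    rw [mul_one_div]
  have hflow : 1 ≤ (K : ℝ≥0) * fl n s := by
    have h1 : s ≤ fl n s + stp n := le_fl_add n s
    have h2 : (K : ℝ≥0) * stp n ≤ 1 := by
      unfold stp
      rw [mul_one_div, div_le_one (by positivity)]
      exact hK2
    have h3 : (1 : ℝ≥0) + 1 ≤ K * fl n s + 1 := by
      calc (1 : ℝ≥0) + 1 = 2 := by norm_num
        _ ≤ K * s := hs2
        _ ≤ K * (fl n s + stp n) := by gcongr
        _ = K * fl n s + K * stp n := by ring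
        _ ≤ _ := by gcongr
    exact le_of_add_le_add_right h3
  have hch : ∀ y : ℝ≥0, y ≤ K → ∀ c,
      |X (c, s, y) ω - X (c, fl n s, fl n y) ω| ≤ 7 * √K * (n + 4) * qq ^ n := by
    intro y hy c
    refine chain_bound (f := fun s t => X (c, s, t) ω) (Real.sqrt_nonneg _)
      (fun m hm => ?_) hsK hy ?_
    · have := hn m hm c
      unfold edgeE at this
      exact this
    · have h1 := (hcont c).tendsto (s, y)
      have h2 : Tendsto (fun m => (fl m s, fl m y)) atTop (𝓝 (s, y)) :=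
        (tendsto_fl s).prodMk_nhds (tendsto_fl y)
      exact h1.comp h2
  unfold pairE
  simp only [Set.mem_setOf_eq]
  rw [← hfl, ← hfl, ← hfl]
  refine ⟨hflow, ?_⟩
  rw [pi_norm_le_iff_of_nonneg (rad_nonneg K n)]
  intro c
  have h1 := hch t htK c
  have h2 := hch t' htK' c
  rw [← hz c] at h2
  rw [Pi.sub_apply, Real.norm_eq_abs]
  have e : X (c, fl n s, fl n t') ω - X (c, fl n s, fl n t) ω =
      (X (c, s, t) ω - X (c, fl n s, fl n t) ω) - (X (c, s, t) ω - X (c, fl n s, fl n t') ω) := by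
    ring
  rw [e]
  refine (abs_sub _ _).trans ?_
  unfold rad
  linarith

/-- In dimension five, almost surely no slice has three double points with different right
endpoints, and no slice has a triple point. -/
theorem IsSheet.ae_few_doubles (h : IsSheet X P) (hd : Fintype.card ι = 5)
    (hcont : ∀ᵐ ω ∂P, ∀ c, Continuous (fun p : ℝ≥0 × ℝ≥0 => X (c, p.1, p.2) ω)) :
    ∀ᵐ ω ∂P, ∀ s : ℝ≥0, 0 < s →
      (∀ a b c : ℝ≥0, a < b → b < c → (∀ k, X (k, s, a) ω = X (k, s, b) ω) →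
        (∀ k, X (k, s, b) ω = X (k, s, c) ω) → False) ∧
      (∀ a₁ b₁ a₂ b₂ a₃ b₃ : ℝ≥0, a₁ < b₁ → a₂ < b₂ → a₃ < b₃ → b₁ < b₂ → b₂ < b₃ →
        (∀ k, X (k, s, a₁) ω = X (k, s, b₁) ω) → (∀ k, X (k, s, a₂) ω = X (k, s, b₂) ω) →
        (∀ k, X (k, s, a₃) ω = X (k, s, b₃) ω) → False) := by
  classical
  have hE : ∀ᵐ ω ∂P, ∀ K : ℕ, 1 ≤ K → ∀ c, ∀ᶠ n : ℕ in atTop,
      EdgeBound (fun s t => X (c, s, t) ω) K n (edgeE K n) := by
    rw [ae_all_iff]
    intro K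
    by_cases hK : 1 ≤ K
    · have : ∀ᵐ ω ∂P, ∀ c, ∀ᶠ n : ℕ in atTop,
          EdgeBound (fun s t => X (c, s, t) ω) K n (edgeE K n) := by
        rw [ae_all_iff]
        intro c
        exact h.ae_edgeBound c K hK
      filter_upwards [this] with ω hω _
      exact hω
    · exact Eventually.of_forall fun ω h' => absurd h' hK
  have hT : ∀ᵐ ω ∂P, ∀ K : ℕ, 1 ≤ K → ∀ᶠ n : ℕ in atTop, ∀ p : Fin 4 → ℕ,
      (∀ i, p i ≤ K * 2 ^ n) → ω ∉ {ω | gp K n (p 1) (p 2) ∧ gp K n (p 2) (p 3) ∧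
        ω ∈ pairE X K n ((p 0 : ℝ≥0) * stp n) (p 1) (p 2) ∧
        ω ∈ pairE X K n ((p 0 : ℝ≥0) * stp n) (p 2) (p 3)} := by
    rw [ae_all_iff]
    intro K
    by_cases hK : 1 ≤ K
    · have := ae_no_config (P := P) (q := 4) (m := 10) (by norm_num) hK
        (fun n p => {ω | gp K n (p 1) (p 2) ∧ gp K n (p 2) (p 3) ∧
          ω ∈ pairE X K n ((p 0 : ℝ≥0) * stp n) (p 1) (p 2) ∧
          ω ∈ pairE X K n ((p 0 : ℝ≥0) * stp n) (p 2) (p 3)}) (by
          intro n p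
          by_cases hg : gp K n (p 1) (p 2) ∧ gp K n (p 2) (p 3)
          · obtain ⟨g1, g2⟩ := hg
            simp only [g1, g2, true_and]
            refine (pairE2_le h hK _ g1 g2 g2).trans (le_of_eq ?_)
            rw [hd, ← ENNReal.ofReal_pow (by have := rad_nonneg K n; positivity), ← pow_mul]
          · have : {ω | gp K n (p 1) (p 2) ∧ gp K n (p 2) (p 3) ∧
                ω ∈ pairE X K n ((p 0 : ℝ≥0) * stp n) (p 1) (p 2) ∧
                ω ∈ pairE X K n ((p 0 : ℝ≥0) * stp n) (p 2) (p 3)} = ∅ := by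
              ext ω
              simp only [Set.mem_setOf_eq, Set.mem_empty_iff_false, iff_false]
              rintro ⟨g1, g2, -⟩
              exact hg ⟨g1, g2⟩
            rw [this, measure_empty]
            exact bot_le)
      filter_upwards [this] with ω hω _
      exact hω
    · exact Eventually.of_forall fun ω h' => absurd h' hK
  have hM : ∀ᵐ ω ∂P, ∀ K : ℕ, 1 ≤ K → ∀ᶠ n : ℕ in atTop, ∀ p : Fin 7 → ℕ,
      (∀ i, p i ≤ K * 2 ^ n) → ω ∉ {ω | (gp K n (p 1) (p 2) ∧ gp K n (p 2) (p 4) ∧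
        gp K n (p 3) (p 4) ∧ gp K n (p 4) (p 6) ∧ gp K n (p 5) (p 6)) ∧
        ω ∈ pairE X K n ((p 0 : ℝ≥0) * stp n) (p 1) (p 2) ∧
        ω ∈ pairE X K n ((p 0 : ℝ≥0) * stp n) (p 3) (p 4) ∧
        ω ∈ pairE X K n ((p 0 : ℝ≥0) * stp n) (p 5) (p 6)} := by
    rw [ae_all_iff]
    intro K
    by_cases hK : 1 ≤ K
    · have := ae_no_config (P := P) (q := 7) (m := 15) (by norm_num) hK
        (fun n p => {ω | (gp K n (p 1) (p 2) ∧ gp K n (p 2) (p 4) ∧
        gp K n (p 3) (p 4) ∧ gp K n (p 4) (p 6) ∧ gp K n (p 5) (p 6)) ∧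
        ω ∈ pairE X K n ((p 0 : ℝ≥0) * stp n) (p 1) (p 2) ∧
        ω ∈ pairE X K n ((p 0 : ℝ≥0) * stp n) (p 3) (p 4) ∧
        ω ∈ pairE X K n ((p 0 : ℝ≥0) * stp n) (p 5) (p 6)}) (by
          intro n p
          by_cases hg : gp K n (p 1) (p 2) ∧ gp K n (p 2) (p 4) ∧
              gp K n (p 3) (p 4) ∧ gp K n (p 4) (p 6) ∧ gp K n (p 5) (p 6)
          · obtain ⟨g1, g2, g3, g4, g5⟩ := hg
            simp only [g1, g2, g3, g4, g5, true_and]
            refine (pairE3_le h hK _ g1 g2 g3 g4 g5).trans (le_of_eq ?_)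
            rw [hd, ← ENNReal.ofReal_pow (by have := rad_nonneg K n; positivity), ← pow_mul]
          · have : {ω | (gp K n (p 1) (p 2) ∧ gp K n (p 2) (p 4) ∧
                gp K n (p 3) (p 4) ∧ gp K n (p 4) (p 6) ∧ gp K n (p 5) (p 6)) ∧
                ω ∈ pairE X K n ((p 0 : ℝ≥0) * stp n) (p 1) (p 2) ∧
                ω ∈ pairE X K n ((p 0 : ℝ≥0) * stp n) (p 3) (p 4) ∧
                ω ∈ pairE X K n ((p 0 : ℝ≥0) * stp n) (p 5) (p 6)} = ∅ := by
              ext ω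
              simp only [Set.mem_setOf_eq, Set.mem_empty_iff_false, iff_false]
              rintro ⟨g1, -⟩
              exact hg g1
            rw [this, measure_empty]
            exact bot_le)
      filter_upwards [this] with ω hω _
      exact hω
    · exact Eventually.of_forall fun ω h' => absurd h' hK
  filter_upwards [hE, hT, hM, hcont] with ω hωE hωT hωM hωc s hs
  have hs' : (0 : ℝ) < s := by exact_mod_cast hs
  -- common preparation: given times below `M` and gaps above `g`, a good level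
  have prep : ∀ (M g : ℝ), 0 < g → ∃ K n : ℕ, 1 ≤ K ∧ K ≤ n ∧ M ≤ K ∧ 2 / g ≤ K ∧
      s ≤ K ∧ 2 ≤ (K : ℝ≥0) * s ∧
      (∀ m, n ≤ m → ∀ c, EdgeBound (fun s t => X (c, s, t) ω) K m (edgeE K m)) ∧
      (∀ p : Fin 4 → ℕ, (∀ i, p i ≤ K * 2 ^ n) → ω ∉ {ω | gp K n (p 1) (p 2) ∧
        gp K n (p 2) (p 3) ∧
        ω ∈ pairE X K n ((p 0 : ℝ≥0) * stp n) (p 1) (p 2) ∧
        ω ∈ pairE X K n ((p 0 : ℝ≥0) * stp n) (p 2) (p 3)}) ∧
      (∀ p : Fin 7 → ℕ, (∀ i, p i ≤ K * 2 ^ n) → ω ∉ {ω | (gp K n (p 1) (p 2) ∧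
        gp K n (p 2) (p 4) ∧ gp K n (p 3) (p 4) ∧ gp K n (p 4) (p 6) ∧ gp K n (p 5) (p 6)) ∧
        ω ∈ pairE X K n ((p 0 : ℝ≥0) * stp n) (p 1) (p 2) ∧
        ω ∈ pairE X K n ((p 0 : ℝ≥0) * stp n) (p 3) (p 4) ∧
        ω ∈ pairE X K n ((p 0 : ℝ≥0) * stp n) (p 5) (p 6)}) := by
    intro M g hg
    obtain ⟨K, hKb⟩ := exists_nat_ge (1 + s + |M| + 2 / s + 2 / g : ℝ)
    have p1 : 0 < 2 / (s : ℝ) := by positivity
    have p2 : 0 < 2 / g := by positivity
    have p3 : 0 ≤ |M| := abs_nonneg M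
    have p4 : M ≤ |M| := le_abs_self M
    have hK1r : (1 : ℝ) ≤ K := by linarith
    have hK1 : 1 ≤ K := by exact_mod_cast hK1r
    have hsK : s ≤ K := by
      have : (s : ℝ) ≤ K := by linarith
      exact_mod_cast this
    have hs2 : 2 ≤ (K : ℝ≥0) * s := by
      have h2 : 2 / (s : ℝ) ≤ K := by linarith
      rw [div_le_iff₀ hs'] at h2
      exact_mod_cast h2
    have hE' : ∀ᶠ n : ℕ in atTop, ∀ m, n ≤ m → ∀ c,
        EdgeBound (fun s t => X (c, s, t) ω) K m (edgeE K m) := by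
      have := eventually_all.2 (hωE K hK1)
      obtain ⟨N, hN'⟩ := eventually_atTop.1 this
      filter_upwards [eventually_ge_atTop N] with n hn m hm c
      exact hN' m (hn.trans hm) c
    obtain ⟨n, hn1, hn2, hn3, hnK⟩ :=
      (hE'.and ((hωT K hK1).and ((hωM K hK1).and (eventually_ge_atTop K)))).exists
    exact ⟨K, n, hK1, hnK, by linarith, by linarith, hsK, hs2, hn1, hn2, hn3⟩
  have hgap : ∀ (K n : ℕ) (g : ℝ) (x y : ℝ≥0), 0 < g → 1 ≤ K → K ≤ n → 2 / g ≤ K →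
      (x : ℝ) + g ≤ y → gp K n ⌊x * 2 ^ n⌋₊ ⌊y * 2 ^ n⌋₊ := by
    intro K n g x y hg hK hnK h2 hxy
    have hK0 : (0 : ℝ) < K := by exact_mod_cast hK
    have h3 : 2 / (K : ℝ) ≤ g := by
      rw [div_le_iff₀ hg] at h2
      rw [div_le_iff₀ hK0]
      linarith
    have h4 : x + 2 / K ≤ y := by
      have : (x : ℝ) + 2 / K ≤ y := by linarith
      exact_mod_cast this
    exact grid_gap hnK h4 hK
  have hfloor : ∀ (K n : ℕ) (M : ℝ) (x : ℝ≥0), (x : ℝ) ≤ M → M ≤ K → ⌊x * 2 ^ n⌋₊ ≤ K * 2 ^ n := by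
    intro K n M x hx hM
    have hxK : x ≤ K := by
      have : (x : ℝ) ≤ K := by linarith
      exact_mod_cast this
    apply Nat.floor_le_of_le
    push_cast
    gcongr
  have hle : ∀ (K : ℕ) (M : ℝ) (x : ℝ≥0), (x : ℝ) ≤ M → M ≤ K → x ≤ K := by
    intro K M x hx hM
    have : (x : ℝ) ≤ K := by linarith
    exact_mod_cast this
  refine ⟨?_, ?_⟩
  · intro a b c hab hbc e1 e2
    have hab' : (a : ℝ) < b := by exact_mod_cast hab
    have hbc' : (b : ℝ) < c := by exact_mod_cast hbc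
    set g : ℝ := min ((b : ℝ) - a) (c - b) with hg
    have hg0 : 0 < g := lt_min (by linarith) (by linarith)
    have hg1 : g ≤ (b : ℝ) - a := min_le_left _ _
    have hg2 : g ≤ (c : ℝ) - b := min_le_right _ _
    obtain ⟨K, n, hK, hnK, hMK, hgK, hsK, hs2, hn1, hn2, -⟩ := prep c g hg0
    refine hn2 ![⌊s * 2 ^ n⌋₊, ⌊a * 2 ^ n⌋₊, ⌊b * 2 ^ n⌋₊, ⌊c * 2 ^ n⌋₊] ?_ ?_
    · intro i
      fin_cases i
      · exact hfloor K n s s le_rfl (by exact_mod_cast hsK)
      · exact hfloor K n c a (by linarith) hMK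
      · exact hfloor K n c b (by linarith) hMK
      · exact hfloor K n c c le_rfl hMK
    · refine ⟨hgap K n g a b hg0 hK hnK hgK (by linarith),
        hgap K n g b c hg0 hK hnK hgK (by linarith), ?_, ?_⟩
      · exact mem_pairE_of_eq hnK hωc hn1 hsK (hle K c a (by linarith) hMK)
          (hle K c b (by linarith) hMK) hs2 e1
      · exact mem_pairE_of_eq hnK hωc hn1 hsK (hle K c b (by linarith) hMK)
          (hle K c c le_rfl hMK) hs2 e2
  · intro a₁ b₁ a₂ b₂ a₃ b₃ h1 h2 h3 h12 h23 e1 e2 e3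
    have h1' : (a₁ : ℝ) < b₁ := by exact_mod_cast h1
    have h2' : (a₂ : ℝ) < b₂ := by exact_mod_cast h2
    have h3' : (a₃ : ℝ) < b₃ := by exact_mod_cast h3
    have h12' : (b₁ : ℝ) < b₂ := by exact_mod_cast h12
    have h23' : (b₂ : ℝ) < b₃ := by exact_mod_cast h23
    set g : ℝ := min (min ((b₁ : ℝ) - a₁) (b₂ - a₂)) (min ((b₃ : ℝ) - a₃)
      (min ((b₂ : ℝ) - b₁) (b₃ - b₂))) with hg
    have hg0 : 0 < g := lt_min (lt_min (by linarith) (by linarith))
      (lt_min (by linarith) (lt_min (by linarith) (by linarith)))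
    have hg1 : g ≤ (b₁ : ℝ) - a₁ := (min_le_left _ _).trans (min_le_left _ _)
    have hg2 : g ≤ (b₂ : ℝ) - a₂ := (min_le_left _ _).trans (min_le_right _ _)
    have hg3 : g ≤ (b₃ : ℝ) - a₃ := (min_le_right _ _).trans (min_le_left _ _)
    have hg4 : g ≤ (b₂ : ℝ) - b₁ := (min_le_right _ _).trans ((min_le_right _ _).trans
      (min_le_left _ _))
    have hg5 : g ≤ (b₃ : ℝ) - b₂ := (min_le_right _ _).trans ((min_le_right _ _).trans
      (min_le_right _ _))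
    obtain ⟨K, n, hK, hnK, hMK, hgK, hsK, hs2, hn1, -, hn3⟩ := prep b₃ g hg0
    refine hn3 ![⌊s * 2 ^ n⌋₊, ⌊a₁ * 2 ^ n⌋₊, ⌊b₁ * 2 ^ n⌋₊, ⌊a₂ * 2 ^ n⌋₊, ⌊b₂ * 2 ^ n⌋₊,
      ⌊a₃ * 2 ^ n⌋₊, ⌊b₃ * 2 ^ n⌋₊] ?_ ?_
    · intro i
      fin_cases i
      · exact hfloor K n s s le_rfl (by exact_mod_cast hsK)
      · exact hfloor K n b₃ a₁ (by linarith) hMK
      · exact hfloor K n b₃ b₁ (by linarith) hMK
      · exact hfloor K n b₃ a₂ (by linarith) hMK
      · exact hfloor K n b₃ b₂ (by linarith) hMK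
      · exact hfloor K n b₃ a₃ (by linarith) hMK
      · exact hfloor K n b₃ b₃ le_rfl hMK
    · refine ⟨⟨hgap K n g a₁ b₁ hg0 hK hnK hgK (by linarith),
        hgap K n g b₁ b₂ hg0 hK hnK hgK (by linarith),
        hgap K n g a₂ b₂ hg0 hK hnK hgK (by linarith),
        hgap K n g b₂ b₃ hg0 hK hnK hgK (by linarith),
        hgap K n g a₃ b₃ hg0 hK hnK hgK (by linarith)⟩, ?_, ?_, ?_⟩
      · exact mem_pairE_of_eq hnK hωc hn1 hsK (hle K b₃ a₁ (by linarith) hMK)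
          (hle K b₃ b₁ (by linarith) hMK) hs2 e1
      · exact mem_pairE_of_eq hnK hωc hn1 hsK (hle K b₃ a₂ (by linarith) hMK)
          (hle K b₃ b₂ (by linarith) hMK) hs2 e2
      · exact mem_pairE_of_eq hnK hωc hn1 hsK (hle K b₃ a₃ (by linarith) hMK)
          (hle K b₃ b₃ le_rfl hMK) hs2 e3

end Pool.Agent.Helper41
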