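import Mathlib
import Pool.Agent.Helper41.ZeroEnd
import Pool.Agent.Helper41.DoublePts

open MeasureTheory ProbabilityTheory Filter Topology
open scoped ENNReal NNReal

namespace Pool.Agent.Helper41

variable {Ω : Type*} [MeasurableSpace Ω] {P : Measure Ω} [IsProbabilityMeasure P]

/-- Linear transforms of a process with given characteristic functions. -/
lemma CharKernel.linear {T S : Type*} {X : T → Ω → ℝ} {K : T → T → ℝ}
    (h : CharKernel X P K) {κ : Type*} [Fintype κ] (β : S → κ → ℝ) (r : S → κ → T) :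
    CharKernel (fun s ω => ∑ k, β s k * X (r s k) ω) P
      (fun s s' => ∑ k, ∑ l, β s k * β s' l * K (r s k) (r s' l)) := by
  intro n q a
  have h1 := h.char_fintype (ι := Fin n × κ) (fun x => r (q x.1) x.2)
    (fun x => a x.1 * β (q x.1) x.2)
  have e1 : ∀ ω, ∑ x : Fin n × κ, a x.1 * β (q x.1) x.2 * X (r (q x.1) x.2) ω =
      ∑ i, a i * ∑ k, β (q i) k * X (r (q i) k) ω := by
    intro ω
    rw [Fintype.sum_prod_type]
    refine Finset.sum_congr rfl fun i _ => ?_
    rw [Finset.mul_sum]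
    refine Finset.sum_congr rfl fun k _ => ?_
    ring
  have e2 : ∑ x : Fin n × κ, ∑ y : Fin n × κ, a x.1 * β (q x.1) x.2 * (a y.1 * β (q y.1) y.2) *
      K (r (q x.1) x.2) (r (q y.1) y.2) =
      ∑ i, ∑ j, a i * a j * ∑ k, ∑ l, β (q i) k * β (q j) l * K (r (q i) k) (r (q j) l) := by
    rw [Fintype.sum_prod_type]
    refine Finset.sum_congr rfl fun i _ => ?_
    rw [Finset.sum_congr rfl fun k _ => Fintype.sum_prod_type _, Finset.sum_comm]
    refine Finset.sum_congr rfl fun j _ => ?_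
    rw [Finset.mul_sum]
    refine Finset.sum_congr rfl fun k _ => ?_
    rw [Finset.mul_sum]
    refine Finset.sum_congr rfl fun l _ => ?_
    ring
  rw [e2] at h1
  simp_rw [e1] at h1
  exact h1

lemma CharKernel.congr_kernel {T : Type*} {X Y : T → Ω → ℝ} {K : T → T → ℝ} {n : ℕ}
    (hY : CharKernel Y P K) (K' : T → T → ℝ) (q : Fin n → T) (a : Fin n → ℝ)
    (hXY : ∀ i ω, X (q i) ω = Y (q i) ω) (hK : ∀ i j, K (q i) (q j) = K' (q i) (q j)) :
    ∫ ω, Complex.exp (Complex.I * ((∑ i, a i * X (q i) ω : ℝ) : ℂ)) ∂P =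
      Complex.exp (-(1 / 2 : ℂ) * ((∑ i, ∑ j, a i * a j * K' (q i) (q j) : ℝ) : ℂ)) := by
  have h1 := hY n q a
  simp_rw [← hXY] at h1
  rw [h1]
  congr 3
  refine Finset.sum_congr rfl fun i _ => Finset.sum_congr rfl fun j _ => ?_
  rw [hK]

/-- start of the block `p` of the time window `[a, a + l)` -/
noncomputable def bst (a l : ℝ≥0) : ℕ → ℝ≥0
  | 0 => a
  | p + 1 => bst a l p + l * (1 / 2) ^ (p + 1)

/-- length of the block `p` -/
noncomputable def bln (l : ℝ≥0) (p : ℕ) : ℝ≥0 := l * (1 / 2) ^ (p + 1)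

lemma bst_succ (a l : ℝ≥0) (p : ℕ) : bst a l (p + 1) = bst a l p + bln l p := rfl

lemma bst_mono (a l : ℝ≥0) : Monotone (bst a l) :=
  monotone_nat_of_le_succ fun p => by rw [bst_succ]; exact le_self_add

lemma le_bst (a l : ℝ≥0) (p : ℕ) : a ≤ bst a l p := bst_mono a l (Nat.zero_le p)

lemma bst_add (a l : ℝ≥0) (p : ℕ) : bst a l p + l * (1 / 2) ^ p = a + l := by
  induction p with
  | zero => simp [bst]
  | succ p ih =>
    have e : bst a l (p + 1) + l * (1 / 2) ^ (p + 1) = bst a l p + l * (1 / 2) ^ p := by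
      rw [bst_succ]
      unfold bln
      rw [add_assoc]
      congr 1
      rw [← mul_add, pow_succ]
      congr 1
      rw [← mul_add]
      have : (1 / 2 + 1 / 2 : ℝ≥0) = 1 := by norm_num
      rw [this, mul_one]
    rw [e, ih]

lemma bst_lt {a l : ℝ≥0} (hl : 0 < l) (p : ℕ) : bst a l p < a + l := by
  rw [← bst_add a l p]
  exact lt_add_of_pos_right _ (by positivity)

/-- the part of `[0, τ]` in the block `[4q, 4q+4]` -/
noncomputable def clp (q : ℕ) (τ : ℝ≥0) : ℝ≥0 := min (τ - 4 * q) 4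

lemma clp_le (q : ℕ) (τ : ℝ≥0) : clp q τ ≤ 4 := min_le_right _ _

lemma clp_eq_zero {q : ℕ} {τ : ℝ≥0} (h : τ ≤ 4 * q) : clp q τ = 0 := by
  unfold clp
  rw [tsub_eq_zero_of_le h]
  exact min_eq_left zero_le

lemma clp_mono (q : ℕ) : Monotone (clp q) := by
  intro x y hxy
  unfold clp
  gcongr

lemma clp_min (q : ℕ) (x y : ℝ≥0) : min (clp q x) (clp q y) = clp q (min x y) :=
  ((clp_mono q).map_min).symm

lemma sum_clp {N : ℕ} {τ : ℝ≥0} (h : τ ≤ 4 * N) : ∑ q ∈ Finset.range N, clp q τ = τ := by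
  have key : ∀ N : ℕ, ∑ q ∈ Finset.range N, clp q τ = min τ (4 * N) := by
    intro N
    induction N with
    | zero => simp
    | succ N ih =>
      rw [Finset.sum_range_succ, ih]
      unfold clp
      rcases le_total τ (4 * N) with h1 | h1
      · rw [min_eq_left h1, tsub_eq_zero_of_le h1, min_eq_left zero_le, add_zero]
        refine (min_eq_left (h1.trans ?_)).symm
        gcongr
        omega
      · rw [min_eq_right h1]
        have e : τ = 4 * N + (τ - 4 * N) := (add_tsub_cancel_of_le h1).symm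
        have e2 : (4 : ℝ≥0) * ((N + 1 : ℕ) : ℝ≥0) = 4 * N + 4 := by
          push_cast
          ring
        rw [e2]
        conv_rhs => rw [e]
        rw [min_add_add_left]
  rw [key, min_eq_left h]

/-- real time attached to the new time `τ`, clamped to block `q` -/
noncomputable def tmq (a l : ℝ≥0) (q : ℕ) (τ : ℝ≥0) : ℝ≥0 := bst a l q + bln l q * (clp q τ / 4)

lemma bst_le_tmq (a l : ℝ≥0) (q : ℕ) (τ : ℝ≥0) : bst a l q ≤ tmq a l q τ := le_self_add

lemma tmq_le (a l : ℝ≥0) (q : ℕ) (τ : ℝ≥0) : tmq a l q τ ≤ bst a l (q + 1) := by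
  rw [bst_succ]
  unfold tmq
  gcongr
  have h1 : clp q τ / 4 ≤ 1 := by
    rw [div_le_one (by norm_num)]
    exact clp_le q τ
  calc bln l q * (clp q τ / 4) ≤ bln l q * 1 := by gcongr
    _ = _ := mul_one _

lemma continuous_tmq (a l : ℝ≥0) (q : ℕ) : Continuous (tmq a l q) := by
  unfold tmq clp
  fun_prop

/-- weights -/
noncomputable def wq (l : ℝ≥0) (q : ℕ) : ℝ := 2 / √(bln l q : ℝ)

lemma wq_pos {l : ℝ≥0} (hl : 0 < l) (q : ℕ) : 0 < wq l q := by
  unfold wq
  have h : (0 : ℝ) < bln l q := by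
    have : 0 < bln l q := by unfold bln; positivity
    exact_mod_cast this
  have := Real.sqrt_pos.2 h
  positivity

section
variable {ι : Type*} [DecidableEq ι] {X : ι × ℝ≥0 × ℝ≥0 → Ω → ℝ}

/-- the finite stage of the transformed sheet -/
noncomputable def locN (X : ι × ℝ≥0 × ℝ≥0 → Ω → ℝ) (a l : ℝ≥0) (N : ℕ) (q : ι × ℝ≥0 × ℝ≥0)
    (ω : Ω) : ℝ :=
  ∑ p ∈ Finset.range N, wq l p * (X (q.1, q.2.1, tmq a l p q.2.2) ω -
    X (q.1, q.2.1, bst a l p) ω)

/-- the transformed sheet: all increments are taken inside the time window `[a, a + l)` -/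
noncomputable def locX (X : ι × ℝ≥0 × ℝ≥0 → Ω → ℝ) (a l : ℝ≥0) (q : ι × ℝ≥0 × ℝ≥0)
    (ω : Ω) : ℝ := locN X a l (⌊q.2.2⌋₊ + 1) q ω

omit [MeasurableSpace Ω] [DecidableEq ι] in
lemma locN_eq (a l : ℝ≥0) {N M : ℕ} (hNM : N ≤ M) {q : ι × ℝ≥0 × ℝ≥0} (hq : q.2.2 ≤ 4 * N)
    (ω : Ω) : locN X a l M q ω = locN X a l N q ω := by
  unfold locN
  rw [← Finset.sum_range_add_sum_Ico _ hNM]
  rw [Finset.sum_eq_zero (s := Finset.Ico N M), add_zero]
  intro p hp
  have h1 : N ≤ p := (Finset.mem_Ico.1 hp).1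
  have h2 : q.2.2 ≤ 4 * (p : ℝ≥0) := by
    refine hq.trans ?_
    gcongr
  have h3 : tmq a l p q.2.2 = bst a l p := by
    unfold tmq
    rw [clp_eq_zero h2]
    simp
  rw [h3, sub_self, mul_zero]

lemma le_four_floor (x : ℝ≥0) {N : ℕ} (hN : ⌊x⌋₊ + 1 ≤ N) : x ≤ 4 * (N : ℝ≥0) := by
  have h1 : x < (⌊x⌋₊ : ℝ≥0) + 1 := Nat.lt_floor_add_one x
  have h2 : ((⌊x⌋₊ + 1 : ℕ) : ℝ≥0) ≤ N := by exact_mod_cast hN
  push_cast at h2
  calc x ≤ N := h1.le.trans h2
    _ ≤ 4 * N := le_mul_of_one_le_left zero_le (by norm_num)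

omit [MeasurableSpace Ω] [DecidableEq ι] in
lemma locX_eq (a l : ℝ≥0) {N : ℕ} {q : ι × ℝ≥0 × ℝ≥0} (hN : ⌊q.2.2⌋₊ + 1 ≤ N) (ω : Ω) :
    locX X a l q ω = locN X a l N q ω :=
  (locN_eq a l hN (le_four_floor _ le_rfl) ω).symm

omit [MeasurableSpace Ω] [DecidableEq ι] in
lemma continuous_locX (a l : ℝ≥0) {ω : Ω} {c : ι}
    (hc : Continuous (fun p : ℝ≥0 × ℝ≥0 => X (c, p.1, p.2) ω)) :
    Continuous (fun p : ℝ≥0 × ℝ≥0 => locX X a l (c, p.1, p.2) ω) := by
  rw [continuous_iff_continuousAt]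
  rintro ⟨s, t⟩
  obtain ⟨N, hN⟩ := exists_nat_gt (t + 1)
  have h1 : Continuous (fun p : ℝ≥0 × ℝ≥0 => locN X a l (N + 1) (c, p.1, p.2) ω) := by
    unfold locN
    refine continuous_finsetSum _ fun p _ => ?_
    refine continuous_const.mul ?_
    have e1 : Continuous (fun x : ℝ≥0 × ℝ≥0 => (x.1, tmq a l p x.2)) :=
      continuous_fst.prodMk ((continuous_tmq a l p).comp continuous_snd)
    have e2 : Continuous (fun x : ℝ≥0 × ℝ≥0 => (x.1, bst a l p)) :=
      continuous_fst.prodMk continuous_const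
    exact (hc.comp e1).sub (hc.comp e2)
  refine h1.continuousAt.congr ?_
  have hopen : IsOpen {p : ℝ≥0 × ℝ≥0 | p.2 < t + 1} := isOpen_lt continuous_snd continuous_const
  have hmem : (s, t) ∈ {p : ℝ≥0 × ℝ≥0 | p.2 < t + 1} := by
    show t < t + 1
    exact lt_add_of_pos_right t one_pos
  filter_upwards [hopen.mem_nhds hmem] with p hp
  refine (locX_eq a l ?_ ω).symm
  have h2 : ⌊p.2⌋₊ < N := by
    rw [Nat.floor_lt zero_le]
    exact lt_trans hp hN
  show ⌊p.2⌋₊ + 1 ≤ N + 1
  omega

/-- covariance of block increments -/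
lemma cov_block (a l : ℝ≥0) (p p' : ℕ) (x y : ℝ≥0) :
    ((min (tmq a l p x) (tmq a l p' y) : ℝ≥0) : ℝ) - ((min (tmq a l p x) (bst a l p') : ℝ≥0) : ℝ) -
      ((min (bst a l p) (tmq a l p' y) : ℝ≥0) : ℝ) + ((min (bst a l p) (bst a l p') : ℝ≥0) : ℝ) =
      if p = p' then (bln l p : ℝ) * ((min (clp p x) (clp p y) : ℝ≥0) : ℝ) / 4 else 0 := by
  rcases lt_trichotomy p p' with h | h | h
  · rw [if_neg h.ne]
    have h1 : tmq a l p x ≤ bst a l p' := (tmq_le a l p x).trans (bst_mono a l h)
    have h2 : bst a l p ≤ bst a l p' := bst_mono a l h.le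
    have h3 : bst a l p' ≤ tmq a l p' y := bst_le_tmq a l p' y
    rw [min_eq_left (h1.trans h3), min_eq_left h1, min_eq_left (h2.trans h3), min_eq_left h2]
    ring
  · subst h
    rw [if_pos rfl]
    have h1 : bst a l p ≤ tmq a l p x := bst_le_tmq a l p x
    have h2 : bst a l p ≤ tmq a l p y := bst_le_tmq a l p y
    rw [min_eq_right h1, min_eq_left h2, min_self]
    have e : min (tmq a l p x) (tmq a l p y) =
        bst a l p + bln l p * (min (clp p x) (clp p y) / 4) := by
      unfold tmq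
      rcases le_total (clp p x) (clp p y) with h3 | h3
      · rw [min_eq_left h3, min_eq_left]
        gcongr
      · rw [min_eq_right h3, min_eq_right]
        gcongr
    rw [e]
    push_cast
    ring
  · rw [if_neg h.ne']
    have h1 : tmq a l p' y ≤ bst a l p := (tmq_le a l p' y).trans (bst_mono a l h)
    have h2 : bst a l p' ≤ bst a l p := bst_mono a l h.le
    have h3 : bst a l p ≤ tmq a l p x := bst_le_tmq a l p x
    rw [min_eq_right (h1.trans h3), min_eq_right (h2.trans h3), min_eq_right h1, min_eq_right h2]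
    ring

/-- The transformed process is again a Brownian sheet. -/
theorem IsSheet.locX (h : IsSheet X P) (a : ℝ≥0) {l : ℝ≥0} (hl : 0 < l) :
    IsSheet (Helper41.locX X a l) P := by
  refine ⟨fun q => ?_, ?_⟩
  · unfold Helper41.locX locN
    exact Finset.measurable_sum _ fun p _ => ((h.meas _).sub (h.meas _)).const_mul _
  · intro n q c
    set N : ℕ := ∑ i, (⌊(q i).2.2⌋₊ + 1) with hN
    have hNi : ∀ i, ⌊(q i).2.2⌋₊ + 1 ≤ N := fun i =>
      Finset.single_le_sum (f := fun i => ⌊(q i).2.2⌋₊ + 1) (fun _ _ => Nat.zero_le _)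
        (Finset.mem_univ i)
    have hlin := h.char.linear (S := ι × ℝ≥0 × ℝ≥0) (κ := Fin N × Fin 2)
      (fun _ k => wq l k.1 * (if k.2 = 0 then 1 else -1))
      (fun s k => (s.1, s.2.1, if k.2 = 0 then tmq a l k.1 s.2.2 else bst a l k.1))
    refine hlin.congr_kernel (X := Helper41.locX X a l) sheetK q c (fun i ω => ?_) (fun i j => ?_)
    · rw [locX_eq a l (hNi i) ω]
      unfold locN
      rw [Fintype.sum_prod_type, Finset.sum_range]
      refine Finset.sum_congr rfl fun p _ => ?_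
      rw [Fin.sum_univ_two]
      simp only [if_true, Fin.one_eq_zero_iff, OfNat.ofNat_ne_one, if_false]
      ring
    · show ∑ k : Fin N × Fin 2, ∑ k' : Fin N × Fin 2, _ = _
      rw [Fintype.sum_prod_type]
      have hb : ∀ p : ℕ, (0 : ℝ) < bln l p := by
        intro p
        have : 0 < bln l p := by unfold bln; positivity
        exact_mod_cast this
      have e1 : ∀ p : Fin N, ∑ b : Fin 2, ∑ k' : Fin N × Fin 2,
          wq l p * (if b = 0 then (1 : ℝ) else -1) * (wq l k'.1 * (if k'.2 = 0 then 1 else -1)) *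
            sheetK ((q i).1, (q i).2.1, if b = 0 then tmq a l p (q i).2.2 else bst a l p)
              ((q j).1, (q j).2.1, if k'.2 = 0 then tmq a l k'.1 (q j).2.2 else bst a l k'.1) =
          if (q i).1 = (q j).1 then ((min (q i).2.1 (q j).2.1 : ℝ≥0) : ℝ) *
            ((min (clp p (q i).2.2) (clp p (q j).2.2) : ℝ≥0) : ℝ) else 0 := by
        intro p
        rw [Finset.sum_comm, Fintype.sum_prod_type]
        have e2 : ∀ p' : Fin N, ∑ b' : Fin 2, ∑ b : Fin 2,
            wq l p * (if b = 0 then (1 : ℝ) else -1) * (wq l p' * (if b' = 0 then 1 else -1)) *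
              sheetK ((q i).1, (q i).2.1, if b = 0 then tmq a l p (q i).2.2 else bst a l p)
                ((q j).1, (q j).2.1, if b' = 0 then tmq a l p' (q j).2.2 else bst a l p') =
            if (q i).1 = (q j).1 then wq l p * wq l p' * ((min (q i).2.1 (q j).2.1 : ℝ≥0) : ℝ) *
              (if (p : ℕ) = p' then (bln l p : ℝ) *
                ((min (clp p (q i).2.2) (clp p (q j).2.2) : ℝ≥0) : ℝ) / 4 else 0) else 0 := by
          intro p'
          rw [← cov_block a l p p' (q i).2.2 (q j).2.2, Fin.sum_univ_two, Fin.sum_univ_two,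
            Fin.sum_univ_two]
          unfold sheetK
          by_cases hc : (q i).1 = (q j).1
          · simp only [hc, if_true, Fin.one_eq_zero_iff, OfNat.ofNat_ne_one, if_false]
            ring
          · simp only [hc, if_false, mul_zero, add_zero]
        rw [Finset.sum_congr rfl fun p' _ => e2 p']
        by_cases hc : (q i).1 = (q j).1
        · simp only [hc, if_true]
          rw [Finset.sum_eq_single p]
          · rw [if_pos rfl]
            have hw : wq l p * wq l p * (bln l p : ℝ) = 4 := by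
              unfold wq
              have h1 := hb p
              have h2 : √(bln l p : ℝ) * √(bln l p : ℝ) = bln l p := Real.mul_self_sqrt h1.le
              have h3 : √(bln l p : ℝ) ≠ 0 := (Real.sqrt_pos.2 h1).ne'
              rw [div_mul_div_comm, h2, div_mul_cancel₀ _ h1.ne']
              norm_num
            calc _ = (wq l p * wq l p * (bln l p : ℝ)) / 4 *
                  (((min (q i).2.1 (q j).2.1 : ℝ≥0) : ℝ) *
                  ((min (clp p (q i).2.2) (clp p (q j).2.2) : ℝ≥0) : ℝ)) := by ring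
              _ = _ := by rw [hw]; ring
          · intro p' _ hp'
            rw [if_neg (fun e => hp' (Fin.ext e.symm)), mul_zero]
          · intro hp
            exact absurd (Finset.mem_univ p) hp
        · simp only [hc, if_false, Finset.sum_const_zero]
      rw [Finset.sum_congr rfl fun p _ => e1 p]
      unfold sheetK
      by_cases hc : (q i).1 = (q j).1
      · simp only [hc, if_true]
        rw [← Finset.mul_sum]
        congr 1
        have e3 : ∀ p : Fin N, min (clp p (q i).2.2) (clp p (q j).2.2) =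
            clp p (min (q i).2.2 (q j).2.2) := fun p => clp_min _ _ _
        simp_rw [e3]
        rw [← NNReal.coe_sum, ← Finset.sum_range (fun p => clp p (min (q i).2.2 (q j).2.2)),
          sum_clp ((min_le_left _ _).trans (le_four_floor _ (hNi i)))]
      · simp only [hc, if_false, Finset.sum_const_zero]

end

end Pool.Agent.Helper41
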