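import Mathlib
import Pool.Agent.Helper41.BS2.Local

open MeasureTheory ProbabilityTheory Filter Topology
open scoped ENNReal NNReal

namespace Pool.Agent.Helper41

variable {Ω : Type*} [MeasurableSpace Ω] {P : Measure Ω} [IsProbabilityMeasure P]
variable {X : Fin 4 × ℝ≥0 × ℝ≥0 → Ω → ℝ}

/-- Passing from approximate to exact double points by compactness, with both bounds on `s`. -/
theorem exact_of_near' {ω : Ω} (hcont : ∀ c, Continuous (fun p : ℝ≥0 × ℝ≥0 => X (c, p.1, p.2) ω))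
    (hnear : ∀ K : ℕ, ∃ k, K ≤ k ∧ ∃ s : ℝ≥0, 1 ≤ s ∧ s ≤ 2 ∧ ∀ i < k, ∃ n < mi i,
      ∃ u v : ℝ≥0, u ≤ 1 ∧ v ≤ 1 ∧
        ‖vinc X s (tb i n u) (te i n v) ω‖ ≤ 1 / ((k : ℝ) + 1)) :
    ∃ s : ℝ≥0, 1 ≤ s ∧ s ≤ 2 ∧ ∀ i, ∃ n, ∃ u v : ℝ≥0, vinc X s (tb i n u) (te i n v) ω = 0 := by
  choose k hk s hs1 hs2 H using hnear
  obtain ⟨s', hs', φ, hφ, hlim⟩ := (isCompact_Icc (a := (1 : ℝ≥0)) (b := 2)).tendsto_subseq
    (x := s) (fun K => ⟨hs1 K, hs2 K⟩)
  refine ⟨s', hs'.1, hs'.2, fun i => ?_⟩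
  have H' : ∀ K, ∃ q : ℕ × ℝ≥0 × ℝ≥0, q ∈ (Set.Iio (mi i)) ×ˢ (Set.Icc (0 : ℝ≥0) 1) ×ˢ
      (Set.Icc (0 : ℝ≥0) 1) ∧ (i < K →
      ‖vinc X (s (φ K)) (tb i q.1 q.2.1) (te i q.1 q.2.2) ω‖ ≤ 1 / ((k (φ K) : ℝ) + 1)) := by
    intro K
    by_cases hiK : i < K
    · obtain ⟨n, hn, u, v, hu, hv, hq⟩ := H (φ K) i
        (lt_of_lt_of_le hiK ((hφ.id_le K).trans (hk (φ K))))
      exact ⟨(n, u, v), ⟨hn, ⟨zero_le, hu⟩, ⟨zero_le, hv⟩⟩, fun _ => hq⟩
    · exact ⟨(0, 0, 0), ⟨mi_pos i, ⟨zero_le, zero_le⟩, ⟨zero_le, zero_le⟩⟩, fun h => absurd h hiK⟩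
  choose q hq1 hq2 using H'
  have hcomp : IsCompact ((Set.Iio (mi i)) ×ˢ (Set.Icc (0 : ℝ≥0) 1) ×ˢ (Set.Icc (0 : ℝ≥0) 1)) :=
    (Set.finite_Iio _).isCompact.prod (isCompact_Icc.prod isCompact_Icc)
  obtain ⟨q', hq', ψ, hψ, hlim'⟩ := hcomp.tendsto_subseq hq1
  refine ⟨q'.1, q'.2.1, q'.2.2, ?_⟩
  have h1 : Tendsto (fun K => (s (φ (ψ K)), q (ψ K))) atTop (𝓝 (s', q')) :=
    (hlim.comp hψ.tendsto_atTop).prodMk_nhds hlim'
  have h2 := ((continuous_vinc hcont i).tendsto (s', q')).comp h1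
  have h3 : Tendsto (fun K => ‖vinc X (s (φ (ψ K))) (tb i (q (ψ K)).1 (q (ψ K)).2.1)
      (te i (q (ψ K)).1 (q (ψ K)).2.2) ω‖) atTop
      (𝓝 ‖vinc X s' (tb i q'.1 q'.2.1) (te i q'.1 q'.2.2) ω‖) := h2.norm
  have h4 : Tendsto (fun K : ℕ => 1 / ((k (φ (ψ K)) : ℝ) + 1)) atTop (𝓝 0) := by
    have h5 : Tendsto (fun K : ℕ => 1 / ((K : ℝ) + 1)) atTop (𝓝 0) :=
      tendsto_one_div_add_atTop_nhds_zero_nat
    have h6 : Tendsto (fun K : ℕ => k (φ (ψ K))) atTop atTop :=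
      tendsto_atTop_mono (fun K => (hψ.id_le K).trans ((hφ.id_le _).trans (hk _))) tendsto_id
    exact h5.comp h6
  have h7 : ‖vinc X s' (tb i q'.1 q'.2.1) (te i q'.1 q'.2.2) ω‖ ≤ 0 := by
    refine le_of_tendsto_of_tendsto h3 h4 ?_
    filter_upwards [eventually_gt_atTop i] with K hK
    exact hq2 (ψ K) (lt_of_lt_of_le hK (hψ.id_le K))
  exact norm_le_zero_iff.1 h7

/-- increments inside one block -/
lemma locX_diff (a l : ℝ≥0) (p : ℕ) {c : Fin 4} {s τ τ' : ℝ≥0} (h1 : 4 * (p : ℝ≥0) ≤ τ)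
    (h2 : τ ≤ 4 * p + 4) (h1' : 4 * (p : ℝ≥0) ≤ τ') (h2' : τ' ≤ 4 * p + 4) (ω : Ω) :
    locX X a l (c, s, τ') ω - locX X a l (c, s, τ) ω =
      wq l p * (X (c, s, tmq a l p τ') ω - X (c, s, tmq a l p τ) ω) := by
  obtain ⟨N, hN⟩ : ∃ N : ℕ, ⌊τ⌋₊ + 1 ≤ N ∧ ⌊τ'⌋₊ + 1 ≤ N ∧ p + 1 ≤ N :=
    ⟨(⌊τ⌋₊ + 1) + (⌊τ'⌋₊ + 1) + (p + 1), by omega, by omega, by omega⟩
  rw [locX_eq a l (q := (c, s, τ')) hN.2.1 ω, locX_eq a l (q := (c, s, τ)) hN.1 ω]
  unfold locN
  rw [← Finset.sum_sub_distrib, Finset.sum_eq_single p]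
  · ring
  · intro r _ hr
    have e : clp r τ' = clp r τ := by
      rcases lt_or_gt_of_ne hr with h | h
      · have h3 : (4 : ℝ≥0) * r + 4 ≤ 4 * p := by
          have h4 : ((r + 1 : ℕ) : ℝ≥0) ≤ p := by exact_mod_cast h
          push_cast at h4
          calc (4 : ℝ≥0) * r + 4 = 4 * (r + 1) := by ring
            _ ≤ 4 * p := by gcongr
        have h5 : ∀ y : ℝ≥0, 4 * (p : ℝ≥0) ≤ y → clp r y = 4 := by
          intro y hy
          unfold clp
          apply min_eq_right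
          apply le_tsub_of_add_le_left
          exact h3.trans hy
        rw [h5 _ h1', h5 _ h1]
      · have h3 : (4 : ℝ≥0) * p + 4 ≤ 4 * r := by
          have h4 : ((p + 1 : ℕ) : ℝ≥0) ≤ r := by exact_mod_cast h
          push_cast at h4
          calc (4 : ℝ≥0) * p + 4 = 4 * (p + 1) := by ring
            _ ≤ 4 * r := by gcongr
        rw [clp_eq_zero (h2'.trans h3), clp_eq_zero (h2.trans h3)]
    have e2 : tmq a l r τ' = tmq a l r τ := by
      unfold tmq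
      rw [e]
    simp only [e2]
    ring
  · intro hp
    exact absurd (Finset.mem_range.2 hN.2.2) hp

/-- An event of probability at least `1/36` on which some slice at a level in `[1,2]` has infinitely
many double points with both times in the window `[a, a + l)`. -/
theorem IsSheet.exists_event_double (h : IsSheet X P)
    (hcont : ∀ᵐ ω ∂P, ∀ c, Continuous (fun p : ℝ≥0 × ℝ≥0 => X (c, p.1, p.2) ω))
    (a : ℝ≥0) {l : ℝ≥0} (hl : 0 < l) :
    ∃ A : Set Ω, MeasurableSet A ∧ ENNReal.ofReal (1 / 36) ≤ P A ∧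
      ∀ ω ∈ A, ∃ s : ℝ≥0, 1 ≤ s ∧ s ≤ 2 ∧
        {q : ℝ≥0 × ℝ≥0 | a ≤ q.1 ∧ q.1 < q.2 ∧ q.2 < a + l ∧
          ∀ c, X (c, s, q.1) ω = X (c, s, q.2) ω}.Infinite := by
  have hY := h.locX a hl
  have hε : ∀ k : ℕ, (0 : ℝ) < 1 / ((k : ℝ) + 1) := fun k => by positivity
  have hε1 : ∀ k : ℕ, 1 / ((k : ℝ) + 1) ≤ 1 := fun k => by
    rw [div_le_one (by positivity)]
    have : (0 : ℝ) ≤ k := Nat.cast_nonneg k
    linarith
  choose G hGm hGP hG using fun k : ℕ => near_event hY (hε k) (hε1 k) k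
  have h1 := limsup_ge (P := P) (G := G) (fun k => (hGm k).nullMeasurableSet) hGP
  have hlim : MeasurableSet {ω | ∀ K, ∃ k, K ≤ k ∧ ω ∈ G k} := by
    have e : {ω | ∀ K, ∃ k, K ≤ k ∧ ω ∈ G k} = ⋂ K, ⋃ k ≥ K, G k := by
      ext ω
      simp
    rw [e]
    exact MeasurableSet.iInter fun K => MeasurableSet.iUnion fun k =>
      MeasurableSet.iUnion fun _ => hGm k
  obtain ⟨S, hSsub, hSm, hS0⟩ := exists_measurable_superset_of_null (ae_iff.1 hcont)
  refine ⟨{ω | ∀ K, ∃ k, K ≤ k ∧ ω ∈ G k} \ S, hlim.diff hSm, ?_, ?_⟩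
  · rw [measure_sdiff_null hS0]
    exact h1
  · rintro ω ⟨hω, hωS⟩
    have hc : ∀ c, Continuous (fun p : ℝ≥0 × ℝ≥0 => X (c, p.1, p.2) ω) := by
      by_contra hcon
      exact hωS (hSsub hcon)
    obtain ⟨s, hs1, hs2, hs⟩ := exact_of_near' (X := Pool.Agent.Helper41.locX X a l)
      (fun c => continuous_locX a l (hc c)) (fun K => by
        obtain ⟨k, hk, hkG⟩ := hω K
        exact ⟨k, hk, hG k ω hkG⟩)
    refine ⟨s, hs1, hs2, ?_⟩
    choose n u v hv using hs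
    have hb1 : ∀ i, 4 * (Nat.pair i (n i) : ℝ≥0) ≤ tb i (n i) (u i) := fun i => le_self_add
    have hb2 : ∀ i, tb i (n i) (u i) ≤ 4 * (Nat.pair i (n i) : ℝ≥0) + 1 := fun i => by
      unfold tb
      gcongr
      exact min_le_right _ _
    have he1 : ∀ i, 4 * (Nat.pair i (n i) : ℝ≥0) + 2 ≤ te i (n i) (v i) := fun i => le_self_add
    have he2 : ∀ i, te i (n i) (v i) ≤ 4 * (Nat.pair i (n i) : ℝ≥0) + 4 := fun i => by
      unfold te
      calc 4 * (Nat.pair i (n i) : ℝ≥0) + 2 + min (v i) 1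
          ≤ 4 * (Nat.pair i (n i) : ℝ≥0) + 2 + 1 := by
            gcongr
            exact min_le_right _ _
        _ = 4 * (Nat.pair i (n i) : ℝ≥0) + 3 := by ring
        _ ≤ _ := by gcongr; norm_num
    have hbl : ∀ p, 0 < bln l p := fun p => by unfold bln; positivity
    have hclb : ∀ i, clp (Nat.pair i (n i)) (tb i (n i) (u i)) ≤ 1 := fun i => by
      unfold clp
      refine (min_le_left _ _).trans ?_
      exact tsub_le_iff_left.2 (hb2 i)
    have hcle : ∀ i, 2 ≤ clp (Nat.pair i (n i)) (te i (n i) (v i)) := fun i => by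
      unfold clp
      refine le_min ?_ (by norm_num)
      exact le_tsub_of_add_le_left (he1 i)
    refine Set.infinite_of_injective_forall_mem
      (f := fun i => (tmq a l (Nat.pair i (n i)) (tb i (n i) (u i)),
        tmq a l (Nat.pair i (n i)) (te i (n i) (v i)))) ?_ ?_
    · intro i j hij
      by_contra hne
      have hp : Nat.pair i (n i) ≠ Nat.pair j (n j) := fun hp => hne (Nat.pair_eq_pair.1 hp).1
      simp only [Prod.mk.injEq] at hij
      have key : ∀ i j, Nat.pair i (n i) < Nat.pair j (n j) →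
          tmq a l (Nat.pair i (n i)) (tb i (n i) (u i)) <
            tmq a l (Nat.pair j (n j)) (tb j (n j) (u j)) := by
        intro i j hlt
        refine lt_of_lt_of_le ?_ ((bst_mono a l hlt).trans (bst_le_tmq a l _ _))
        rw [bst_succ]
        unfold tmq
        have h3 : clp (Nat.pair i (n i)) (tb i (n i) (u i)) / 4 < 1 := by
          rw [div_lt_one (by norm_num)]
          exact lt_of_le_of_lt (hclb i) (by norm_num)
        have h4 := mul_lt_mul_of_pos_left h3 (hbl (Nat.pair i (n i)))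
        rw [mul_one] at h4
        exact add_lt_add_right h4 _
      rcases lt_or_gt_of_ne hp with hlt | hlt
      · exact (key i j hlt).ne hij.1
      · exact (key j i hlt).ne hij.1.symm
    · intro i
      refine ⟨(le_bst a l _).trans (bst_le_tmq a l _ _), ?_, ?_, fun c => ?_⟩
      · show tmq a l _ _ < tmq a l _ _
        unfold tmq
        have h3 : clp (Nat.pair i (n i)) (tb i (n i) (u i)) / 4 <
            clp (Nat.pair i (n i)) (te i (n i) (v i)) / 4 := by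
          have h5 : clp (Nat.pair i (n i)) (tb i (n i) (u i)) <
              clp (Nat.pair i (n i)) (te i (n i) (v i)) :=
            lt_of_le_of_lt (hclb i) (lt_of_lt_of_le (by norm_num) (hcle i))
          gcongr
        exact add_lt_add_right (mul_lt_mul_of_pos_left h3 (hbl (Nat.pair i (n i)))) _
      · exact lt_of_le_of_lt (tmq_le a l _ _) (bst_lt hl _)
      · have h6 := congrFun (hv i) c
        simp only [vinc, incr, Pi.zero_apply] at h6
        have h7 := locX_diff (X := X) a l (Nat.pair i (n i)) (c := c) (s := s)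
          (hb1 i) ((hb2 i).trans (by gcongr; norm_num))
          (le_trans le_self_add (he1 i)) (he2 i) ω
        rw [h6] at h7
        have h8 := wq_pos hl (Nat.pair i (n i))
        rcases mul_eq_zero.1 h7.symm with h9 | h9
        · exact absurd h9 h8.ne'
        · show X (c, s, tmq a l _ _) ω = X (c, s, tmq a l _ _) ω
          linarith

end Pool.Agent.Helper41
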