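import Mathlib
import Pool.Agent.Helper41.ZeroEnd
import Pool.Agent.Helper41.Proj

open MeasureTheory ProbabilityTheory Filter Topology
open scoped ENNReal NNReal

namespace Pool.Agent.Helper41

variable {Ω : Type*} [MeasurableSpace Ω] {P : Measure Ω} [IsProbabilityMeasure P]
variable {X : Fin 2 × ℝ≥0 × ℝ≥0 → Ω → ℝ}


/-- Passing from approximate to exact zeros by compactness, with both bounds on `s`. -/
theorem exact_zero_of_near' {ω : Ω}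
    (hcont : ∀ c, Continuous (fun p : ℝ≥0 × ℝ≥0 => X (c, p.1, p.2) ω))
    (hnear : ∀ K : ℕ, ∃ k, K ≤ k ∧ ∃ s : ℝ≥0, 1 ≤ s ∧ s ≤ 2 ∧ ∀ i < k, ∃ n < mz i,
      ∃ u : ℝ≥0, u ≤ 1 ∧
        ‖pos (pV X ω) s (Tb (Nz i + n) * (1 + u))‖ ≤ 1 / (8 * ((k : ℝ) + 1))) :
    ∃ s : ℝ≥0, 1 ≤ s ∧ s ≤ 2 ∧ ∀ i, ∃ n < mz i, ∃ u : ℝ≥0, u ≤ 1 ∧
      pos (pV X ω) s (Tb (Nz i + n) * (1 + u)) = 0 := by
  choose k hk s hs1 hs2 H using hnear
  obtain ⟨s', hs', φ, hφ, hlim⟩ := (isCompact_Icc (a := (1 : ℝ≥0)) (b := 2)).tendsto_subseq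
    (x := s) (fun K => ⟨hs1 K, hs2 K⟩)
  refine ⟨s', hs'.1, hs'.2, fun i => ?_⟩
  have H' : ∀ K, ∃ q : ℕ × ℝ≥0, q ∈ (Set.Iio (mz i)) ×ˢ (Set.Icc (0 : ℝ≥0) 1) ∧ (i < K →
      ‖pos (pV X ω) (s (φ K)) (Tb (Nz i + q.1) * (1 + q.2))‖ ≤
        1 / (8 * ((k (φ K) : ℝ) + 1))) := by
    intro K
    by_cases hiK : i < K
    · obtain ⟨n, hn, u, hu, hq⟩ := H (φ K) i
        (lt_of_lt_of_le hiK ((hφ.id_le K).trans (hk (φ K))))
      exact ⟨(n, u), ⟨hn, ⟨zero_le, hu⟩⟩, fun _ => hq⟩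
    · exact ⟨(0, 0), ⟨mz_pos i, ⟨zero_le, zero_le⟩⟩, fun h => absurd h hiK⟩
  choose q hq1 hq2 using H'
  have hcomp : IsCompact ((Set.Iio (mz i)) ×ˢ (Set.Icc (0 : ℝ≥0) 1)) :=
    (Set.finite_Iio _).isCompact.prod isCompact_Icc
  obtain ⟨q', hq', ψ, hψ, hlim'⟩ := hcomp.tendsto_subseq hq1
  refine ⟨q'.1, hq'.1, q'.2, hq'.2.2, ?_⟩
  have h1 : Tendsto (fun K => (s (φ (ψ K)), q (ψ K))) atTop (𝓝 (s', q')) :=
    (hlim.comp hψ.tendsto_atTop).prodMk_nhds hlim'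
  have h2 := ((continuous_posV' hcont i).tendsto (s', q')).comp h1
  have h3 : Tendsto (fun K => ‖pos (pV X ω) (s (φ (ψ K)))
      (Tb (Nz i + (q (ψ K)).1) * (1 + (q (ψ K)).2))‖) atTop
      (𝓝 ‖pos (pV X ω) s' (Tb (Nz i + q'.1) * (1 + q'.2))‖) := h2.norm
  have h4 : Tendsto (fun K : ℕ => 1 / (8 * ((k (φ (ψ K)) : ℝ) + 1))) atTop (𝓝 0) := by
    have h5 : Tendsto (fun K : ℕ => (1 / 8) * (1 / ((K : ℝ) + 1))) atTop (𝓝 ((1 / 8) * 0)) :=
      tendsto_one_div_add_atTop_nhds_zero_nat.const_mul _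
    rw [mul_zero] at h5
    have h6 : Tendsto (fun K : ℕ => k (φ (ψ K))) atTop atTop :=
      tendsto_atTop_mono (fun K => (hψ.id_le K).trans ((hφ.id_le _).trans (hk _))) tendsto_id
    refine (h5.comp h6).congr fun K => ?_
    simp only [Function.comp]
    field_simp
  have h7 : ‖pos (pV X ω) s' (Tb (Nz i + q'.1) * (1 + q'.2))‖ ≤ 0 := by
    refine le_of_tendsto_of_tendsto h3 h4 ?_
    filter_upwards [eventually_gt_atTop i] with K hK
    exact hq2 (ψ K) (lt_of_lt_of_le hK (hψ.id_le K))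
  exact norm_le_zero_iff.1 h7

/-- An event of probability at least `1/212` on which some slice at a level in `[1,2]` has
arbitrarily large zeros. -/
theorem IsSheet.exists_event (h : IsSheet X P)
    (hcont : ∀ᵐ ω ∂P, ∀ c, Continuous (fun p : ℝ≥0 × ℝ≥0 => X (c, p.1, p.2) ω)) :
    ∃ A : Set Ω, MeasurableSet A ∧ ENNReal.ofReal (1 / 212) ≤ P A ∧
      ∀ ω ∈ A, ∃ s : ℝ≥0, 1 ≤ s ∧ s ≤ 2 ∧
        ∀ T : ℝ≥0, ∃ t : ℝ≥0, T < t ∧ ∀ c, X (c, s, t) ω = 0 := by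
  have hε : ∀ k : ℕ, (0 : ℝ) < 1 / (8 * ((k : ℝ) + 1)) := fun k => by positivity
  have hε1 : ∀ k : ℕ, 8 * ((k : ℝ) + 1) * (1 / (8 * ((k : ℝ) + 1))) ^ 2 ≤ 1 := fun k => by
    have hk : (0 : ℝ) ≤ k := Nat.cast_nonneg k
    have e : 8 * ((k : ℝ) + 1) * (1 / (8 * ((k : ℝ) + 1))) ^ 2 = 1 / (8 * ((k : ℝ) + 1)) := by
      field_simp
    rw [e, div_le_one (by positivity)]
    linarith
  choose G hGm hGP hG using fun k : ℕ => near_zero h (hε k) k (hε1 k)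
  have h1 := limsup_ge (P := P) (G := G) (fun k => (hGm k).nullMeasurableSet) hGP
  have hlim : MeasurableSet {ω | ∀ K, ∃ k, K ≤ k ∧ ω ∈ G k} := by
    have e : {ω | ∀ K, ∃ k, K ≤ k ∧ ω ∈ G k} = ⋂ K, ⋃ k ≥ K, G k := by
      ext ω
      simp
    rw [e]
    exact MeasurableSet.iInter fun K => MeasurableSet.iUnion fun k =>
      MeasurableSet.iUnion fun _ => hGm k
  have hz : ∀ᵐ ω ∂P, ∀ (q : ℚ) (c : Fin 2), X (c, (q : ℝ).toNNReal, 0) ω = 0 := by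
    rw [ae_all_iff]
    intro q
    rw [ae_all_iff]
    intro c
    exact h.ae_zero c _
  have hgood : ∀ᵐ ω ∂P, (∀ c, Continuous (fun p : ℝ≥0 × ℝ≥0 => X (c, p.1, p.2) ω)) ∧
      ∀ (q : ℚ) (c : Fin 2), X (c, (q : ℝ).toNNReal, 0) ω = 0 := hcont.and hz
  obtain ⟨S, hSsub, hSm, hS0⟩ := exists_measurable_superset_of_null (ae_iff.1 hgood)
  refine ⟨{ω | ∀ K, ∃ k, K ≤ k ∧ ω ∈ G k} \ S, hlim.diff hSm, ?_, ?_⟩
  · rw [measure_sdiff_null hS0]
    exact h1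
  · rintro ω ⟨hω, hωS⟩
    have hω2 : (∀ c, Continuous (fun p : ℝ≥0 × ℝ≥0 => X (c, p.1, p.2) ω)) ∧
      ∀ (q : ℚ) (c : Fin 2), X (c, (q : ℝ).toNNReal, 0) ω = 0 := by
      by_contra hcon
      exact hωS (hSsub hcon)
    obtain ⟨hc, hq⟩ := hω2
    have hzero : ∀ (s : ℝ≥0) (c : Fin 2), X (c, s, 0) ω = 0 := by
      intro s c
      have hcl : Continuous (fun x : ℝ => X (c, x.toNNReal, (0 : ℝ≥0)) ω) :=
        (hc c).comp (continuous_real_toNNReal.prodMk continuous_const)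
      have := Rat.isDenseEmbedding_coe_real.dense.equalizer hcl
        (continuous_const (y := (0 : ℝ))) (by
          funext q
          exact hq q c)
      have h2 := congrFun this (s : ℝ)
      simpa using h2
    obtain ⟨s, hs1, hs2, hs⟩ := exact_zero_of_near' hc (fun K => by
      obtain ⟨k, hk, hkG⟩ := hω K
      exact ⟨k, hk, hG k ω hkG⟩)
    refine ⟨s, hs1, hs2, fun T => ?_⟩
    obtain ⟨i, hi⟩ := exists_nat_gt T
    obtain ⟨n, hn, u, hu, hv⟩ := hs i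
    refine ⟨Tb (Nz i + n) * (1 + u), ?_, fun c => ?_⟩
    · refine hi.trans ?_
      have h3 : (i : ℝ≥0) < Tb (Nz i + n) := by
        unfold Tb
        have h4 : i < 2 ^ ((Nz i + n + 2) ^ 2) := by
          refine lt_of_lt_of_le Nat.lt_two_pow_self (Nat.pow_le_pow_right (by norm_num) ?_)
          have := le_Nz i
          nlinarith
        exact_mod_cast h4
      exact h3.trans_le (le_mul_of_one_le_right zero_le le_self_add)
    · have h5 := congrFun hv c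
      simp only [pos, pV, Pi.zero_apply] at h5
      rw [hzero s c, sub_zero] at h5
      exact h5

end Pool.Agent.Helper41
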